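import Mathlib

/-!
Basic linear algebra for the biangular lines problem: a system of homogeneous linear equations,
the symmetric square, and the diagonalised data of a pencil of Gram matrices.
-/

namespace Pool.Agent.W5h16.Biang

open Finset

/-- A homogeneous linear system with fewer equations than unknowns has a nonzero solution. -/
lemma exists_ker {ι κ : Type*} [Fintype ι] [Fintype κ] (f : κ → ι → ℝ)
    (h : Fintype.card κ < Fintype.card ι) :
    ∃ v : ι → ℝ, v ≠ 0 ∧ ∀ k, ∑ i, v i * f k i = 0 := by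
  classical
  let L : (ι → ℝ) →ₗ[ℝ] (κ → ℝ) :=
    { toFun := fun v k => ∑ i, v i * f k i
      map_add' := by
        intro v w
        funext k
        simp [add_mul, Finset.sum_add_distrib]
      map_smul' := by
        intro r v
        funext k
        simp [Finset.mul_sum, mul_assoc] }
  have hk : LinearMap.ker L ≠ ⊥ := LinearMap.ker_ne_bot_of_finrank_lt (by simpa using h)
  obtain ⟨v, hv, hv0⟩ := (Submodule.ne_bot_iff _).1 hk
  exact ⟨v, hv0, fun k => congrFun (LinearMap.mem_ker.1 hv) k⟩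

variable {n d : ℕ}

/-- The entries of the symmetric matrix `∑ i, v i • (z_i z_iᵀ)`. -/
def XX (Z : Fin d → Fin n → ℝ) (v : Fin n → ℝ) (c c' : Fin d) : ℝ :=
  ∑ i, v i * (Z c i * Z c' i)

lemma XX_symm (Z : Fin d → Fin n → ℝ) (v : Fin n → ℝ) (c c' : Fin d) :
    XX Z v c c' = XX Z v c' c := by
  unfold XX
  exact Finset.sum_congr rfl fun i _ => by ring

lemma hadamard (Z : Fin d → Fin n → ℝ) (p q : Fin d → ℝ) (v v' : Fin n → ℝ) :
    ∑ c, ∑ c', p c * q c' * XX Z v c c' * XX Z v' c c' =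
      ∑ i, ∑ j, v i * v' j * (∑ c, p c * (Z c i * Z c j)) * (∑ c, q c * (Z c i * Z c j)) := by
  have h1 : ∀ c c', p c * q c' * XX Z v c c' * XX Z v' c c' =
      ∑ i, ∑ j, (v i * v' j) * (p c * (Z c i * Z c j)) * (q c' * (Z c' i * Z c' j)) := by
    intro c c'
    unfold XX
    rw [mul_assoc (p c * q c'), Finset.sum_mul_sum, Finset.mul_sum]
    refine Finset.sum_congr rfl fun i _ => ?_
    rw [Finset.mul_sum]
    refine Finset.sum_congr rfl fun j _ => ?_
    ring
  have h2 : ∀ i j, v i * v' j * (∑ c, p c * (Z c i * Z c j)) * (∑ c, q c * (Z c i * Z c j)) =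
      ∑ c, ∑ c', (v i * v' j) * (p c * (Z c i * Z c j)) * (q c' * (Z c' i * Z c' j)) := by
    intro i j
    rw [mul_assoc (v i * v' j), Finset.sum_mul_sum, Finset.mul_sum]
    refine Finset.sum_congr rfl fun c _ => ?_
    rw [Finset.mul_sum]
    refine Finset.sum_congr rfl fun c' _ => ?_
    ring
  simp_rw [h1, h2]
  calc ∑ c, ∑ c', ∑ i, ∑ j, (v i * v' j) * (p c * (Z c i * Z c j)) * (q c' * (Z c' i * Z c' j))
      = ∑ x : Fin d × Fin d, ∑ y : Fin n × Fin n,
          (v y.1 * v' y.2) * (p x.1 * (Z x.1 y.1 * Z x.1 y.2)) *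
            (q x.2 * (Z x.2 y.1 * Z x.2 y.2)) := by
        simp only [Fintype.sum_prod_type]
    _ = ∑ y : Fin n × Fin n, ∑ x : Fin d × Fin d,
          (v y.1 * v' y.2) * (p x.1 * (Z x.1 y.1 * Z x.1 y.2)) *
            (q x.2 * (Z x.2 y.1 * Z x.2 y.2)) := Finset.sum_comm
    _ = _ := by simp only [Fintype.sum_prod_type]

/-- If all squares of off-diagonal entries of `Zᵀ diag(τ) Z` are `1` and those of the diagonal
entries are `s`, then the form `τ τ'` on symmetric matrices is explicit on the span. -/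
lemma sq_identity (Z : Fin d → Fin n → ℝ) (τ : Fin d → ℝ) (s : ℝ)
    (h : ∀ i j, (∑ c, τ c * (Z c i * Z c j)) ^ 2 = if i = j then s else 1)
    (v v' : Fin n → ℝ) :
    ∑ c, ∑ c', τ c * τ c' * XX Z v c c' * XX Z v' c c' =
      (∑ i, v i) * (∑ i, v' i) + (s - 1) * ∑ i, v i * v' i := by
  rw [hadamard]
  have h1 : ∀ i j, v i * v' j * (∑ c, τ c * (Z c i * Z c j)) * (∑ c, τ c * (Z c i * Z c j)) =
      v i * v' j + (if i = j then (s - 1) * (v i * v' j) else 0) := by
    intro i j
    have := h i j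
    rw [mul_assoc, ← pow_two, this]
    split_ifs <;> ring
  simp_rw [h1, Finset.sum_add_distrib, Finset.sum_ite_eq, Finset.mem_univ, if_true,
    Finset.sum_mul_sum, Finset.mul_sum]

/-- the sum over the squares of coordinates, polarised with a matrix unit: the column version -/
lemma sq_column (Z : Fin d → Fin n → ℝ) (τ : Fin d → ℝ) (s : ℝ)
    (h : ∀ i j, (∑ c, τ c * (Z c i * Z c j)) ^ 2 = if i = j then s else 1)
    (v : Fin n → ℝ) (j : Fin n) :
    ∑ c, ∑ c', τ c * τ c' * XX Z v c c' * (Z c j * Z c' j) =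
      (∑ i, v i) + (s - 1) * v j := by
  classical
  have := sq_identity Z τ s h v (Pi.single j 1)
  simp only [Pi.single_apply, Finset.sum_ite_eq', Finset.mem_univ, if_true, mul_ite, mul_one,
    mul_zero] at this
  rw [← this]
  refine Finset.sum_congr rfl fun c _ => Finset.sum_congr rfl fun c' _ => ?_
  congr 1
  unfold XX
  simp [Pi.single_apply]

/-- The linear conditions attached to a set of unordered pairs. -/
def fq (Z : Fin d → Fin n → ℝ) (p : Sym2 (Fin d)) (i : Fin n) : ℝ :=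
  Sym2.lift ⟨fun c c' => Z c i * Z c' i, fun _ _ => mul_comm _ _⟩ p

lemma fq_mk (Z : Fin d → Fin n → ℝ) (c c' : Fin d) (i : Fin n) :
    fq Z s(c, c') i = Z c i * Z c' i := rfl

lemma exists_ker_pairs (Z : Fin d → Fin n → ℝ) (Q : Finset (Sym2 (Fin d))) (h : Q.card < n) :
    ∃ v : Fin n → ℝ, v ≠ 0 ∧ ∀ c c', s(c, c') ∈ Q → XX Z v c c' = 0 := by
  obtain ⟨v, hv0, hv⟩ := exists_ker (ι := Fin n) (κ := Q) (fun p i => fq Z p.1 i) (by simpa using h)
  exact ⟨v, hv0, fun c c' hc => by simpa [XX, fq_mk] using hv ⟨s(c, c'), hc⟩⟩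

lemma exists_ker_pairs_sum (Z : Fin d → Fin n → ℝ) (Q : Finset (Sym2 (Fin d))) (h : Q.card + 1 < n) :
    ∃ v : Fin n → ℝ, v ≠ 0 ∧ (∀ c c', s(c, c') ∈ Q → XX Z v c c' = 0) ∧ ∑ i, v i = 0 := by
  obtain ⟨v, hv0, hv⟩ := exists_ker (ι := Fin n) (κ := Option Q)
    (fun p i => match p with
      | none => 1
      | some p => fq Z p.1 i) (by simpa using h)
  exact ⟨v, hv0, fun c c' hc => by simpa [XX, fq_mk] using hv (some ⟨s(c, c'), hc⟩),
    by simpa using hv none⟩

end Pool.Agent.W5h16.Biang
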