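import Pool.Agent.W5h16.Biang.Proj

/-!
The case `(a+b)^2 < 1` and the degenerate case `(a+b)^2 = 1`.
-/

namespace Pool.Agent.W5h16.Biang

open Finset

namespace BData

variable {n d : ℕ} (D : BData n d)

/-- If `(a+b)^2 < 1` then `n` is small. -/
lemma bound_of_lt (h : (D.a + D.b) ^ 2 < 1) : 4 * n ≤ d * d + 4 := by
  classical
  by_contra hcon
  push Not at hcon
  let P : Finset (Fin d) := univ.filter fun c => 0 < D.τ c
  let N : Finset (Fin d) := univ.filter fun c => D.τ c < 0
  let Q : Finset (Sym2 (Fin d)) := (P ×ˢ N).image fun x => s(x.1, x.2)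
  have hPN : P.card + N.card ≤ d := by
    have hdis : Disjoint P N := by
      rw [Finset.disjoint_left]
      intro c hc hc'
      simp only [P, N, mem_filter, mem_univ, true_and] at hc hc'
      linarith
    rw [← Finset.card_union_of_disjoint hdis]
    simpa using Finset.card_le_univ (P ∪ N)
  have hQ : Q.card ≤ P.card * N.card := by
    rw [← Finset.card_product]
    exact Finset.card_image_le
  have hQn : Q.card + 1 < n := by
    have h1 : 4 * (P.card * N.card) ≤ (P.card + N.card) * (P.card + N.card) := by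
      zify
      nlinarith [sq_nonneg ((P.card : ℤ) - N.card)]
    have h2 : (P.card + N.card) * (P.card + N.card) ≤ d * d := Nat.mul_le_mul hPN hPN
    omega
  obtain ⟨v, hv0, hv, hvs⟩ := exists_ker_pairs_sum D.Z Q hQn
  have hid := D.idS v v
  rw [hvs] at hid
  have hnn : 0 ≤ ∑ c, ∑ c', D.τ c * D.τ c' * XX D.Z v c c' * XX D.Z v c c' := by
    refine Finset.sum_nonneg fun c _ => Finset.sum_nonneg fun c' _ => ?_
    by_cases hneg : D.τ c * D.τ c' < 0
    · have : XX D.Z v c c' = 0 := by
        rcases mul_neg_iff.1 hneg with ⟨h1, h2⟩ | ⟨h1, h2⟩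
        · apply hv
          simp only [Q, mem_image, mem_product, P, N, mem_filter, mem_univ, true_and]
          exact ⟨(c, c'), ⟨h1, h2⟩, rfl⟩
        · rw [XX_symm]
          apply hv
          simp only [Q, mem_image, mem_product, P, N, mem_filter, mem_univ, true_and]
          exact ⟨(c', c), ⟨h2, h1⟩, rfl⟩
      rw [this]; simp
    · push Not at hneg
      rw [mul_assoc]
      exact mul_nonneg hneg (mul_self_nonneg _)
  have hpos := sum_sq_pos hv0
  nlinarith

/-- The sign patterns of the degenerate case: `M_{ij} = ∑ τ_c z_{ci} z_{cj}` has entries `±1`. -/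
lemma M_sq (h : (D.a + D.b) ^ 2 = 1) (i j : Fin n) :
    (∑ c, D.τ c * (D.Z c i * D.Z c j)) * (∑ c, D.τ c * (D.Z c i * D.Z c j)) = 1 := by
  have := D.sq_τ i j
  rw [← pow_two, this]
  split_ifs <;> simp [h]

/-- Subcase D1. -/
lemma caseD1 (h1 : (D.a + D.b) ^ 2 = 1) (h2 : 1 < (D.a - D.b) ^ 2)
    (h3 : 2 < (univ.filter fun c => D.τ c ≠ 0).card)
    (cs : Fin d) (hcs : D.τ cs ≠ 0) (hcs' : ∀ c, D.τ c = 0 → D.δ cs * D.δ c ≤ 0) :
    2 * n ≤ d * (d - 1) := by
  classical
  by_contra hcon
  push Not at hcon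
  -- two nonzero weights of the same sign
  obtain ⟨u, w, huw, huwpos⟩ : ∃ u w, u ≠ w ∧ 0 < D.τ u * D.τ w := by
    obtain ⟨c1, hc1, c2, hc2, c3, hc3, h12, h13, h23⟩ := Finset.two_lt_card.1 h3
    simp only [mem_filter, mem_univ, true_and] at hc1 hc2 hc3
    rcases lt_or_gt_of_ne hc1 with g1 | g1 <;> rcases lt_or_gt_of_ne hc2 with g2 | g2 <;>
      rcases lt_or_gt_of_ne hc3 with g3 | g3
    · exact ⟨c1, c2, h12, mul_pos_of_neg_of_neg g1 g2⟩
    · exact ⟨c1, c2, h12, mul_pos_of_neg_of_neg g1 g2⟩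
    · exact ⟨c1, c3, h13, mul_pos_of_neg_of_neg g1 g3⟩
    · exact ⟨c2, c3, h23, mul_pos g2 g3⟩
    · exact ⟨c2, c3, h23, mul_pos_of_neg_of_neg g2 g3⟩
    · exact ⟨c1, c3, h13, mul_pos g1 g3⟩
    · exact ⟨c1, c2, h12, mul_pos g1 g2⟩
    · exact ⟨c1, c2, h12, mul_pos g1 g2⟩
  have hu0 : D.τ u ≠ 0 := fun h => by rw [h] at huwpos; simp at huwpos
  have hw0 : D.τ w ≠ 0 := fun h => by rw [h] at huwpos; simp at huwpos
  let f : Fin d → Sym2 (Fin d) := fun c => if D.τ c = 0 then s(cs, c) else s(c, c)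
  have hf : Function.Injective f := by
    intro c c' hcc
    simp only [f] at hcc
    split_ifs at hcc with g g'
    · rw [Sym2.eq_iff] at hcc
      rcases hcc with ⟨_, h⟩ | ⟨h, _⟩
      · exact h
      · rw [← h] at g'; exact absurd g' hcs
    · rw [Sym2.eq_iff] at hcc
      rcases hcc with ⟨h, h'⟩ | ⟨h, h'⟩
      · rw [h'] at g; exact absurd g (by assumption)
      · rw [h'] at g; exact absurd g (by assumption)
    · rw [Sym2.eq_iff] at hcc
      rename_i g2
      rcases hcc with ⟨h, h'⟩ | ⟨h, h'⟩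
      · rw [h'] at g; exact absurd g2 g
      · rw [h] at g; exact absurd g2 g
    · rw [Sym2.eq_iff] at hcc
      rcases hcc with ⟨h, _⟩ | ⟨h, _⟩ <;> exact h
  have huwf : s(u, w) ∉ univ.image f := by
    intro hmem
    simp only [mem_image, mem_univ, true_and, f] at hmem
    obtain ⟨c, hc⟩ := hmem
    split_ifs at hc with g
    · rw [Sym2.eq_iff] at hc
      rcases hc with ⟨_, h⟩ | ⟨_, h⟩
      · rw [h] at g; exact hw0 g
      · rw [h] at g; exact hu0 g
    · rw [Sym2.eq_iff] at hc
      rcases hc with ⟨h, h'⟩ | ⟨h, h'⟩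
      · exact huw (h.symm.trans h')
      · exact huw (h'.symm.trans h)
  let R : Finset (Sym2 (Fin d)) := insert s(u, w) (univ.image f)
  have hR : R.card = d + 1 := by
    rw [Finset.card_insert_of_notMem huwf, Finset.card_image_of_injective _ hf, Finset.card_univ,
      Fintype.card_fin]
  have hRprop : ∀ c c', s(c, c') ∈ R →
      0 < D.τ c * D.τ c' ∨ (D.τ c * D.τ c' = 0 ∧ D.δ c * D.δ c' ≤ 0) := by
    intro c c' hc
    simp only [R, mem_insert, mem_image, mem_univ, true_and, f] at hc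
    rcases hc with hc | ⟨x, hc⟩
    · left
      rw [Sym2.eq_iff] at hc
      rcases hc with ⟨h, h'⟩ | ⟨h, h'⟩ <;> rw [h, h']
      · exact huwpos
      · rw [mul_comm]; exact huwpos
    · split_ifs at hc with g
      · right
        rw [Sym2.eq_iff] at hc
        rcases hc with ⟨h, h'⟩ | ⟨h, h'⟩ <;> subst h <;> subst h'
        · exact ⟨by rw [g]; simp, hcs' _ g⟩
        · exact ⟨by rw [g]; simp, by rw [mul_comm]; exact hcs' _ g⟩
      · left
        rw [Sym2.eq_iff] at hc
        rcases hc with ⟨h, h'⟩ | ⟨h, h'⟩ <;> subst h <;> subst h' <;> exact mul_self_pos.2 g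
  have hcardS : Fintype.card (Sym2 (Fin d)) = (d + 1) * d / 2 := by
    rw [Sym2.card, Fintype.card_fin, Nat.choose_two_right]
    simp
  have hQ : (Rᶜ).card + 1 < n := by
    rw [Finset.card_compl, hR, hcardS]
    have hd : 1 ≤ d := by
      have := Fin.pos cs; omega
    obtain ⟨e, rfl⟩ : ∃ e, d = e + 1 := ⟨d - 1, by omega⟩
    have h4 : (e + 1 + 1) * (e + 1) / 2 = (e + 1) * e / 2 + (e + 1) := by
      have : (e + 1 + 1) * (e + 1) = (e + 1) * e + (e + 1) * 2 := by ring
      rw [this, Nat.add_mul_div_right _ _ (by norm_num)]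
    rw [h4]
    simp only [Nat.add_sub_cancel] at hcon
    -- the remaining inequality: (e+1)*e/2 < n, and n is at least 1
    have h5 : (e + 1) * e / 2 < n := by
      rw [Nat.div_lt_iff_lt_mul (by norm_num)]
      linarith
    by_cases h6 : (e + 1) * e / 2 = 0
    · -- then e = 0, impossible since there are three indices
      have h7 : (univ.filter fun c : Fin (e + 1) => D.τ c ≠ 0).card ≤ e + 1 := by
        simpa using Finset.card_le_univ (univ.filter fun c : Fin (e + 1) => D.τ c ≠ 0)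
      have h8 : 2 ≤ e := by omega
      have h9 : 2 ≤ (e + 1) * e := by nlinarith
      have : 1 ≤ (e + 1) * e / 2 := by
        rw [Nat.le_div_iff_mul_le (by norm_num)]
        omega
      omega
    · omega
  obtain ⟨v, hv0, hv, hvs⟩ := exists_ker_pairs_sum D.Z _ hQ
  have hX : ∀ c c', XX D.Z v c c' ≠ 0 → 0 < D.τ c * D.τ c' ∨
      (D.τ c * D.τ c' = 0 ∧ D.δ c * D.δ c' ≤ 0) := by
    intro c c' hne
    apply hRprop
    by_contra hmem
    exact hne (hv c c' (by simpa using hmem))
  have hidS := D.idS v v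
  have hidD := D.idD v v
  rw [hvs] at hidS hidD
  rw [h1] at hidS
  have hterm : ∀ c ∈ (univ : Finset (Fin d)), ∀ c' ∈ (univ : Finset (Fin d)),
      0 ≤ D.τ c * D.τ c' * XX D.Z v c c' * XX D.Z v c c' := by
    intro c _ c' _
    by_cases hne : XX D.Z v c c' = 0
    · rw [hne]; simp
    · rw [mul_assoc]
      refine mul_nonneg ?_ (mul_self_nonneg _)
      rcases hX c c' hne with h | h
      · exact h.le
      · exact h.1.ge
  have hzero : ∀ c c', D.τ c * D.τ c' * XX D.Z v c c' * XX D.Z v c c' = 0 := by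
    intro c c'
    have hs : ∑ c, ∑ c', D.τ c * D.τ c' * XX D.Z v c c' * XX D.Z v c c' = 0 := by
      rw [hidS]; ring
    have h5 := (Finset.sum_eq_zero_iff_of_nonneg
      (fun c hc => Finset.sum_nonneg (hterm c hc))).1 hs c (mem_univ c)
    exact (Finset.sum_eq_zero_iff_of_nonneg (hterm c (mem_univ c))).1 h5 c' (mem_univ c')
  have hle : ∑ c, ∑ c', D.δ c * D.δ c' * XX D.Z v c c' * XX D.Z v c c' ≤ 0 := by
    refine Finset.sum_nonpos fun c _ => Finset.sum_nonpos fun c' _ => ?_
    by_cases hne : XX D.Z v c c' = 0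
    · rw [hne]; simp
    · rcases hX c c' hne with h | h
      · exfalso
        have := hzero c c'
        have h6 : D.τ c * D.τ c' * XX D.Z v c c' * XX D.Z v c c' ≠ 0 := by
          refine mul_ne_zero (mul_ne_zero h.ne' hne) hne
        exact h6 this
      · rw [mul_assoc]
        exact mul_nonpos_of_nonpos_of_nonneg h.2 (mul_self_nonneg _)
  have hpos := sum_sq_pos hv0
  nlinarith

end BData

end Pool.Agent.W5h16.Biang
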