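import Pool.Agent.W5h16.Biang.CaseD

/-!
The degenerate case `(a+b)^2 = 1`, continued: the system projects to a spherical two-distance set.
-/

namespace Pool.Agent.W5h16.Biang

open Finset

namespace BData

variable {n d : ℕ} (D : BData n d)

/-- Subcase D2: all `δ_c` have the same sign. -/
lemma caseD2 (hn : 2 ≤ n) (h1 : (D.a + D.b) ^ 2 = 1) (h2 : 1 < (D.a - D.b) ^ 2)
    (h3 : ∀ c c', 0 < D.δ c * D.δ c') : TwoDist n (d - 1) := by
  classical
  let i0 : Fin n := ⟨0, by omega⟩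
  set δ0 : ℝ := D.a - D.b with hδ0
  have hδ0ne : δ0 ≠ 0 := by
    intro h; rw [h] at h2; norm_num at h2
  have hδne : ∀ c, D.δ c ≠ 0 := by
    intro c h
    have := h3 c c
    rw [h] at this
    simp at this
  have hpos : ∀ c, 0 < D.δ c / δ0 := by
    intro c
    have h4 : D.δ c * δ0 = ∑ c', (D.δ c * D.δ c') * (D.Z c' i0 * D.Z c' i0) := by
      rw [hδ0, ← D.gram_δ_diag i0, Finset.mul_sum]
      exact Finset.sum_congr rfl fun c' _ => by ring
    have h5 : 0 ≤ D.δ c * δ0 := by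
      rw [h4]
      exact Finset.sum_nonneg fun c' _ => mul_nonneg (h3 c c').le (mul_self_nonneg _)
    have h6 : D.δ c * δ0 ≠ 0 := mul_ne_zero (hδne c) hδ0ne
    have h7 : 0 < D.δ c * δ0 := lt_of_le_of_ne h5 h6.symm
    have h8 : D.δ c / δ0 = D.δ c * δ0 / δ0 ^ 2 := by field_simp
    rw [h8]
    positivity
  obtain ⟨ε, hεdef⟩ : ∃ ε : Fin n → ℝ, ∀ j, ε j = ∑ c, D.τ c * (D.Z c i0 * D.Z c j) :=
    ⟨_, fun _ => rfl⟩
  have hε : ∀ j, ε j * ε j = 1 := fun j => by rw [hεdef]; exact D.M_sq h1 i0 j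
  have hyy : ∀ i j, ∑ c : Fin d, (ε i * (Real.sqrt (D.δ c / δ0) * D.Z c i)) *
      (ε j * (Real.sqrt (D.δ c / δ0) * D.Z c j)) =
      ε i * ε j * (δ0⁻¹ * ∑ c, D.δ c * (D.Z c i * D.Z c j)) := by
    intro i j
    rw [Finset.mul_sum, Finset.mul_sum]
    refine Finset.sum_congr rfl fun c _ => ?_
    have h4 := Real.mul_self_sqrt (hpos c).le
    have h5 : D.δ c = (D.δ c / δ0) * δ0 := by field_simp
    calc (ε i * (Real.sqrt (D.δ c / δ0) * D.Z c i)) * (ε j * (Real.sqrt (D.δ c / δ0) * D.Z c j))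
        = (ε i * ε j) * ((Real.sqrt (D.δ c / δ0) * Real.sqrt (D.δ c / δ0)) *
            (D.Z c i * D.Z c j)) := by ring
      _ = (ε i * ε j) * ((D.δ c / δ0) * (D.Z c i * D.Z c j)) := by rw [h4]
      _ = _ := by ring
  have habs : |δ0⁻¹| < 1 := by
    rw [abs_inv]
    apply inv_lt_one_of_one_lt₀
    rw [← one_lt_sq_iff_one_lt_abs]
    exact h2
  rw [abs_lt] at habs
  refine proj_lemma hn (fun j c => ε j * (Real.sqrt (D.δ c / δ0) * D.Z c j))
    (fun c => D.τ c * D.Z c i0 / Real.sqrt (D.δ c / δ0)) δ0⁻¹ (-δ0⁻¹) habs.2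
    (by linarith [habs.1]) ?_ ?_ ?_
  · intro i
    rw [hyy, D.gram_δ_diag, hε, ← hδ0, inv_mul_cancel₀ hδ0ne, one_mul]
  · intro i j hij
    rw [hyy, D.gram_δ_off i j hij]
    have h4 : ε i * ε j = 1 ∨ ε i * ε j = -1 := by
      have : (ε i * ε j) * (ε i * ε j) = 1 := by
        calc (ε i * ε j) * (ε i * ε j) = (ε i * ε i) * (ε j * ε j) := by ring
          _ = 1 := by rw [hε, hε]; ring
      exact mul_self_eq_one_iff.1 this
    have h5 : -(D.A i j - D.B i j) = 1 ∨ -(D.A i j - D.B i j) = -1 := by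
      rcases D.AB_cases i j hij with ⟨g1, g2⟩ | ⟨g1, g2⟩ | ⟨g1, g2⟩ | ⟨g1, g2⟩ <;> rw [g1, g2]
      · right; norm_num
      · left; norm_num
      · left; norm_num
      · right; norm_num
    rcases h4 with h4 | h4 <;> rcases h5 with h5 | h5 <;> rw [h4, h5]
    · left; ring
    · right; ring
    · right; ring
    · left; ring
  · intro j
    have h4 : ∑ c, D.τ c * D.Z c i0 / Real.sqrt (D.δ c / δ0) *
        (ε j * (Real.sqrt (D.δ c / δ0) * D.Z c j)) = ε j * ε j := by
      have h6 : ε j * ε j = ε j * ∑ c, D.τ c * (D.Z c i0 * D.Z c j) := by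
        conv_lhs => rw [hεdef j]
        rw [hεdef j]
      rw [h6, Finset.mul_sum]
      refine Finset.sum_congr rfl fun c _ => ?_
      have h5 : Real.sqrt (D.δ c / δ0) ≠ 0 := (Real.sqrt_pos.2 (hpos c)).ne'
      field_simp
    rw [h4, hε]

/-- A weighted Gram matrix with at most two nonzero weights has rank at most two. -/
lemma rank_two (Z : Fin d → Fin n → ℝ) (τ : Fin d → ℝ)
    (h : (univ.filter fun c => τ c ≠ 0).card ≤ 2) :
    ∃ (p q : ℝ) (u v : Fin n → ℝ), ∀ i j, ∑ c, τ c * (Z c i * Z c j) =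
      p * (u i * u j) + q * (v i * v j) := by
  classical
  have hsum : ∀ i j, ∑ c, τ c * (Z c i * Z c j) =
      ∑ c ∈ univ.filter (fun c => τ c ≠ 0), τ c * (Z c i * Z c j) := by
    intro i j
    symm
    apply Finset.sum_subset (Finset.subset_univ _)
    intro c _ hc
    simp only [mem_filter, mem_univ, true_and, not_not] at hc
    rw [hc, zero_mul]
  set s := univ.filter fun c => τ c ≠ 0 with hs
  rcases Nat.lt_or_ge s.card 1 with h0 | h0
  · have : s = ∅ := by rw [← Finset.card_eq_zero]; omega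
    refine ⟨0, 0, fun _ => 0, fun _ => 0, fun i j => ?_⟩
    rw [hsum, this]; simp
  · rcases Nat.lt_or_ge s.card 2 with h1 | h1
    · obtain ⟨c, hc⟩ := Finset.card_eq_one.1 (by omega : s.card = 1)
      refine ⟨τ c, 0, Z c, fun _ => 0, fun i j => ?_⟩
      rw [hsum, hc]; simp
    · obtain ⟨c, c', hcc, hc⟩ := Finset.card_eq_two.1 (by omega : s.card = 2)
      refine ⟨τ c, τ c', Z c, Z c', fun i j => ?_⟩
      rw [hsum, hc, Finset.sum_pair hcc]

/-- Subcase D3: at most two nonzero weights `τ_c`. -/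
lemma caseD3 (hn : 2 ≤ n) (h1 : (D.a + D.b) ^ 2 = 1)
    (h3 : (univ.filter fun c => D.τ c ≠ 0).card ≤ 2) : TwoDist n (d - 1) := by
  classical
  let i0 : Fin n := ⟨0, by omega⟩
  obtain ⟨p, q, u, v, huv⟩ := rank_two D.Z D.τ h3
  set σ : ℝ := D.a + D.b with hσ
  set M : Fin n → Fin n → ℝ := fun i j => ∑ c, D.τ c * (D.Z c i * D.Z c j) with hM
  have hMuv : ∀ i j, M i j = p * (u i * u j) + q * (v i * v j) := huv
  have hM1 : ∀ i j, M i j * M i j = 1 := fun i j => D.M_sq h1 i j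
  have hMd : ∀ i, M i i = σ := fun i => D.gram_τ_diag i
  have hMoff : ∀ i j, i ≠ j → M i j = -(D.A i j + D.B i j) := fun i j h => D.gram_τ_off i j h
  have hdet : ∀ i j k, M i i * M j j * M k k + 2 * (M i j * M j k * M i k) -
      M i i * (M j k * M j k) - M j j * (M i k * M i k) - M k k * (M i j * M i j) = 0 := by
    intro i j k
    simp only [hMuv]
    ring
  have htri : ∀ i j k, M i j * M j k * M i k = σ := by
    intro i j k
    have h := hdet i j k
    rw [hMd, hMd, hMd, hM1, hM1, hM1] at h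
    have h5 : σ * σ = 1 := by rw [← pow_two]; exact h1
    rw [h5] at h
    linarith
  have hfac : ∀ i j, M i0 i * M i0 j * M i j = σ := by
    intro i j
    have h := htri i0 i j
    linarith [h, mul_comm (M i0 i * M i j) (M i0 j), mul_right_comm (M i0 i) (M i j) (M i0 j)]
  have hσ2 : σ = 1 ∨ σ = -1 := by
    have : σ * σ = 1 := by rw [← pow_two]; exact h1
    exact mul_self_eq_one_iff.1 this
  have hα := abs_lt.1 D.hα
  have hβ := abs_lt.1 D.hβ
  have hyy : ∀ i j, ∑ c, (M i0 i * D.Z c i) * (M i0 j * D.Z c j) =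
      M i0 i * M i0 j * ∑ c, D.Z c i * D.Z c j := by
    intro i j
    rw [Finset.mul_sum]
    exact Finset.sum_congr rfl fun c _ => by ring
  have hσα : -σ * D.α < 1 := by rcases hσ2 with h | h <;> rw [h] <;> linarith [hα.1, hα.2]
  have hσβ : -σ * D.β < 1 := by rcases hσ2 with h | h <;> rw [h] <;> linarith [hβ.1, hβ.2]
  refine proj_lemma hn (fun j c => M i0 j * D.Z c j) (fun c => D.τ c * D.Z c i0)
    (-σ * D.α) (-σ * D.β) hσα hσβ ?_ ?_ ?_
  · intro i
    rw [hyy, D.norm_one, hM1, mul_one]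
  · intro i j hij
    rw [hyy, D.hG i j, if_neg hij]
    have h4 : M i0 i * M i0 j = σ * M i j := by
      have h5 := hfac i j
      have h6 := hM1 i j
      calc M i0 i * M i0 j = M i0 i * M i0 j * (M i j * M i j) := by rw [h6, mul_one]
        _ = (M i0 i * M i0 j * M i j) * M i j := by ring
        _ = σ * M i j := by rw [h5]
    rw [h4, hMoff i j hij]
    rcases D.AB_cases i j hij with ⟨g1, g2⟩ | ⟨g1, g2⟩ | ⟨g1, g2⟩ | ⟨g1, g2⟩ <;> rw [g1, g2]
    · left; ring
    · left; ring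
    · right; ring
    · right; ring
  · intro j
    have h4 : ∑ c, D.τ c * D.Z c i0 * (M i0 j * D.Z c j) = M i0 j * M i0 j := by
      conv_rhs => rw [show M i0 j * M i0 j = M i0 j * ∑ c, D.τ c * (D.Z c i0 * D.Z c j) from rfl]
      rw [Finset.mul_sum]
      exact Finset.sum_congr rfl fun c _ => by ring
    rw [h4, hM1]

/-- The degenerate case. -/
theorem caseD (hn : 2 ≤ n) (h1 : (D.a + D.b) ^ 2 = 1) (h2 : 1 < (D.a - D.b) ^ 2) :
    2 * n ≤ d * (d - 1) ∨ TwoDist n (d - 1) := by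
  classical
  by_cases h3 : (univ.filter fun c => D.τ c ≠ 0).card ≤ 2
  · exact Or.inr (D.caseD3 hn h1 h3)
  push Not at h3
  by_cases h4 : ∃ cs, D.τ cs ≠ 0 ∧ ∀ c, D.τ c = 0 → D.δ cs * D.δ c ≤ 0
  · obtain ⟨cs, hcs, hcs'⟩ := h4
    exact Or.inl (D.caseD1 h1 h2 h3 cs hcs hcs')
  push Not at h4
  right
  apply D.caseD2 hn h1 h2
  -- a zero weight exists, and all zero weights have the same `δ`
  obtain ⟨c1, hc1⟩ : ∃ c1, D.τ c1 ≠ 0 := by
    obtain ⟨c1, hc1, _⟩ := Finset.two_lt_card.1 h3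
    exact ⟨c1, (mem_filter.1 hc1).2⟩
  obtain ⟨z, hz, _⟩ := h4 c1 hc1
  have hline : ∀ c, D.τ c = 0 → (D.α - D.β) * D.δ c = -2 := by
    intro c hc
    have := D.line c
    rw [hc] at this
    linarith
  have hαβ : D.α - D.β ≠ 0 := by
    intro h
    have := hline z hz
    rw [h] at this
    norm_num at this
  have hsame : ∀ c, D.τ c = 0 → D.δ c = D.δ z := by
    intro c hc
    have h5 := hline c hc
    have h6 := hline z hz
    exact mul_left_cancel₀ hαβ (h5.trans h6.symm)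
  have hz0 : D.δ z ≠ 0 := by
    intro h
    have := hline z hz
    rw [h] at this
    norm_num at this
  have hzpos : ∀ c, 0 < D.δ c * D.δ z := by
    intro c
    by_cases hc : D.τ c = 0
    · rw [hsame c hc]; exact mul_self_pos.2 hz0
    · obtain ⟨z', hz', hpos⟩ := h4 c hc
      rw [hsame z' hz'] at hpos
      exact hpos
  intro c c'
  have h5 := hzpos c
  have h6 := hzpos c'
  have h7 : 0 < (D.δ c * D.δ c') * (D.δ z * D.δ z) := by
    calc 0 < (D.δ c * D.δ z) * (D.δ c' * D.δ z) := mul_pos h5 h6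
      _ = (D.δ c * D.δ c') * (D.δ z * D.δ z) := by ring
  exact (pos_iff_pos_of_mul_pos h7).2 (mul_self_pos.2 hz0)

end BData

end Pool.Agent.W5h16.Biang
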