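import Pool.Agent.W5h16.Biang.RankTwoB

/-!
The nondegenerate case, continued: the rank-two matrix with zero diagonal.
-/

namespace Pool.Agent.W5h16.Biang

open Finset

namespace BData

variable {n d : ℕ} (D : BData n d)

/-- the weights `γ` with Gram matrix `I + α A` in the case `b = 0` -/
def ga (c : Fin d) : ℝ := 1 + D.α * D.β * D.θ c

lemma gram_ga (hb : D.b = 0) (i j : Fin n) :
    ∑ c, D.ga c * (D.Z c i * D.Z c j) = (if i = j then 1 else 0) + D.α * D.A i j := by
  have h := D.hab
  rw [hb] at h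
  unfold ga
  rw [D.gram_comb, hb]
  linear_combination (D.β * D.B i j) * h

lemma gram_θ (hb : D.b = 0) (i j : Fin n) :
    ∑ c, D.θ c * (D.Z c i * D.Z c j) = D.a * D.B i j := by
  rw [D.hT, hb]; ring

/-- the isotropic form in the case `b = 0` -/
def cf (c c' : Fin d) : ℝ := D.θ c * D.ga c' + D.ga c * D.θ c'

lemma cf_symm (c c' : Fin d) : D.cf c c' = D.cf c' c := by
  unfold cf; ring

lemma cf_id (hb : D.b = 0) (v : Fin n → ℝ) :
    ∑ c, ∑ c', D.cf c c' * XX D.Z v c c' * XX D.Z v c c' = 0 := by
  have h1 := hadamard D.Z D.θ D.ga v v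
  have h2 := hadamard D.Z D.ga D.θ v v
  have h3 : ∀ i j, (∑ c, D.θ c * (D.Z c i * D.Z c j)) * (∑ c, D.ga c * (D.Z c i * D.Z c j)) = 0 := by
    intro i j
    rw [D.gram_ga hb, D.gram_θ hb]
    by_cases hij : i = j
    · subst hij; rw [D.hB0]; ring
    · rw [if_neg hij]
      rcases D.A_or_B i j hij with g | g
      · rw [g.2.2]; ring
      · rw [g.2.2]; ring
  have h4 : ∀ i j, v i * v j * (∑ c, D.θ c * (D.Z c i * D.Z c j)) *
      (∑ c, D.ga c * (D.Z c i * D.Z c j)) = 0 := by
    intro i j; rw [mul_assoc, h3, mul_zero]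
  have h5 : ∀ i j, v i * v j * (∑ c, D.ga c * (D.Z c i * D.Z c j)) *
      (∑ c, D.θ c * (D.Z c i * D.Z c j)) = 0 := by
    intro i j; rw [mul_assoc, mul_comm (∑ c, D.ga c * _), h3, mul_zero]
  simp only [h4, Finset.sum_const_zero] at h1
  simp only [h5, Finset.sum_const_zero] at h2
  have h6 : ∑ c, ∑ c', D.cf c c' * XX D.Z v c c' * XX D.Z v c c' =
      (∑ c, ∑ c', D.θ c * D.ga c' * XX D.Z v c c' * XX D.Z v c c') +
      (∑ c, ∑ c', D.ga c * D.θ c' * XX D.Z v c c' * XX D.Z v c c') := by
    rw [← Finset.sum_add_distrib]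
    refine Finset.sum_congr rfl fun c _ => ?_
    rw [← Finset.sum_add_distrib]
    refine Finset.sum_congr rfl fun c' _ => ?_
    unfold cf; ring
  rw [h6, h1, h2, add_zero]

/-- counting the nonzero pairs of the form `cf` -/
lemma cf_count (c1 c2 : Fin d) (hne : c1 ≠ c2) (h1 : 0 < D.θ c1) (h2 : D.θ c2 < 0)
    (hoth : ∀ c, c ≠ c1 → c ≠ c2 → D.θ c = 0) :
    2 * d ≤ (pairs fun c c' => D.cf c c' ≠ 0).card + 2 := by
  classical
  have hga : ∀ c, c ≠ c1 → c ≠ c2 → D.ga c = 1 := by
    intro c hc hc'
    unfold ga; rw [hoth c hc hc']; ring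
  -- a general construction
  have key : ∀ x y : Fin d, (x = c2 ∨ y = c1) → (∀ c, c ≠ x → D.cf c1 c ≠ 0) →
      (∀ c, c ≠ y → D.cf c2 c ≠ 0) → 2 * d ≤ (pairs fun c c' => D.cf c c' ≠ 0).card + 2 := by
    intro x y hxy hx hy
    let S1 : Finset (Sym2 (Fin d)) := (univ.erase x).image fun c => s(c1, c)
    let S2 : Finset (Sym2 (Fin d)) := (univ.erase y).image fun c => s(c2, c)
    have hS1 : S1.card = d - 1 := by
      rw [Finset.card_image_of_injective, Finset.card_erase_of_mem (mem_univ _),
        Finset.card_univ, Fintype.card_fin]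
      intro c c' h
      exact Sym2.congr_right.1 h
    have hS2 : S2.card = d - 1 := by
      rw [Finset.card_image_of_injective, Finset.card_erase_of_mem (mem_univ _),
        Finset.card_univ, Fintype.card_fin]
      intro c c' h
      exact Sym2.congr_right.1 h
    have hdis : Disjoint S1 S2 := by
      rw [Finset.disjoint_left]
      intro p hp hp'
      simp only [S1, S2, mem_image, mem_erase, mem_univ, and_true] at hp hp'
      obtain ⟨c, hc, rfl⟩ := hp
      obtain ⟨c', hc', h⟩ := hp'
      rw [Sym2.eq_iff] at h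
      rcases h with ⟨h, _⟩ | ⟨h, h'⟩
      · exact hne h.symm
      · rcases hxy with g | g
        · exact hc (h.symm.trans g.symm)
        · exact hc' (h'.trans g.symm)
    have hsub : S1 ∪ S2 ⊆ pairs fun c c' => D.cf c c' ≠ 0 := by
      intro p hp
      have hs : ∀ c c', D.cf c c' ≠ 0 → D.cf c' c ≠ 0 := fun c c' h => by
        rw [D.cf_symm]; exact h
      rw [mem_union] at hp
      rcases hp with hp | hp
      · simp only [S1, mem_image, mem_erase, mem_univ, and_true] at hp
        obtain ⟨c, hc, rfl⟩ := hp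
        exact (mem_pairs hs).2 (hx c hc)
      · simp only [S2, mem_image, mem_erase, mem_univ, and_true] at hp
        obtain ⟨c, hc, rfl⟩ := hp
        exact (mem_pairs hs).2 (hy c hc)
    have := Finset.card_le_card hsub
    rw [Finset.card_union_of_disjoint hdis, hS1, hS2] at this
    omega
  have e1 : ∀ c, c ≠ c1 → c ≠ c2 → D.cf c1 c ≠ 0 := by
    intro c hc hc'
    unfold cf
    rw [hga c hc hc', hoth c hc hc']
    simpa using h1.ne'
  have e2 : ∀ c, c ≠ c1 → c ≠ c2 → D.cf c2 c ≠ 0 := by
    intro c hc hc'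
    unfold cf
    rw [hga c hc hc', hoth c hc hc']
    simpa using h2.ne
  have e11 : D.cf c1 c1 = 2 * (D.θ c1 * D.ga c1) := by unfold cf; ring
  have e22 : D.cf c2 c2 = 2 * (D.θ c2 * D.ga c2) := by unfold cf; ring
  by_cases g1 : D.ga c1 = 0
  · have g2 : D.ga c2 ≠ 0 := by
      intro g2
      unfold ga at g1 g2
      have g3 : D.α * D.β * (D.θ c1 - D.θ c2) = 0 := by linear_combination g1 - g2
      rcases mul_eq_zero.1 g3 with g4 | g4
      · rw [g4] at g1; norm_num at g1
      · linarith
    have e12 : D.cf c1 c2 ≠ 0 := by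
      unfold cf
      rw [g1, zero_mul, add_zero]
      exact mul_ne_zero h1.ne' g2
    apply key c1 c1 (Or.inr rfl)
    · intro c hc
      by_cases hc' : c = c2
      · rw [hc']; exact e12
      · exact e1 c hc hc'
    · intro c hc
      by_cases hc' : c = c2
      · rw [hc', e22]; exact mul_ne_zero two_ne_zero (mul_ne_zero h2.ne g2)
      · exact e2 c hc hc'
  · by_cases g2 : D.ga c2 = 0
    · have e12 : D.cf c1 c2 ≠ 0 := by
        unfold cf
        rw [g2, mul_zero, zero_add]
        exact mul_ne_zero g1 h2.ne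
      apply key c2 c2 (Or.inl rfl)
      · intro c hc
        by_cases hc' : c = c1
        · rw [hc', e11]; exact mul_ne_zero two_ne_zero (mul_ne_zero h1.ne' g1)
        · exact e1 c hc' hc
      · intro c hc
        by_cases hc' : c = c1
        · rw [hc', D.cf_symm]; exact e12
        · exact e2 c hc' hc
    · apply key c2 c1 (Or.inl rfl)
      · intro c hc
        by_cases hc' : c = c1
        · rw [hc', e11]; exact mul_ne_zero two_ne_zero (mul_ne_zero h1.ne' g1)
        · exact e1 c hc' hc
      · intro c hc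
        by_cases hc' : c = c2
        · rw [hc', e22]; exact mul_ne_zero two_ne_zero (mul_ne_zero h2.ne g2)
        · exact e2 c hc hc'

/-- rank-one matrices supported on the main coordinates lie in the span -/
lemma span_main (hb : D.b = 0) (hlt : 1 < (D.a + D.b) ^ 2) (hn : d * (d - 1) < 2 * n)
    (c1 c2 : Fin d) (hne : c1 ≠ c2) (h1 : 0 < D.θ c1) (h2 : D.θ c2 < 0)
    (hoth : ∀ c, c ≠ c1 → c ≠ c2 → D.θ c = 0) (z : Fin d → ℝ) (hz1 : z c1 = 0) (hz2 : z c2 = 0) :
    ∃ v : Fin n → ℝ, ∀ c c', XX D.Z v c c' = z c * z c' := by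
  classical
  by_contra hcon
  push Not at hcon
  let y : Option (Fin n) → Fin d → Fin d → ℝ := fun i c c' =>
    match i with
    | none => z c * z c'
    | some i => D.Z c i * D.Z c' i
  have hy : ∀ i c c', y i c c' = y i c' c := by
    intro i c c'
    cases i with
    | none => exact mul_comm _ _
    | some i => exact mul_comm _ _
  have hsum : ∀ (v : Option (Fin n) → ℝ) c c', ∑ i, v i * y i c c' =
      v none * (z c * z c') + XX D.Z (fun i => v (some i)) c c' := by
    intro v c c'
    rw [Fintype.sum_option]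
    rfl
  have hcz : ∀ c c', D.cf c c' * (z c * z c') = 0 := by
    intro c c'
    by_cases g1 : c = c1
    · rw [g1, hz1]; ring
    by_cases g2 : c = c2
    · rw [g2, hz2]; ring
    by_cases g3 : c' = c1
    · rw [g3, hz1]; ring
    by_cases g4 : c' = c2
    · rw [g4, hz2]; ring
    unfold cf
    rw [hoth c g1 g2, hoth c' g3 g4]
    ring
  have hid : ∀ v : Option (Fin n) → ℝ, ∑ c, ∑ c', D.cf c c' * (∑ i, v i * y i c c') *
      (∑ i, v i * y i c c') = 0 * (∑ i, v i * 1) * (∑ i, v i * 1) := by
    intro v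
    rw [zero_mul, zero_mul, ← D.cf_id hb (fun i => v (some i))]
    refine Finset.sum_congr rfl fun c _ => Finset.sum_congr rfl fun c' _ => ?_
    rw [hsum]
    have := hcz c c'
    linear_combination (v none ^ 2 * (z c * z c') +
      2 * v none * XX D.Z (fun i => v (some i)) c c') * this
  have inj : ∀ v : Option (Fin n) → ℝ, (∀ c c', ∑ i, v i * y i c c' = 0) → v = 0 := by
    intro v hv
    have hv0 : v none = 0 := by
      by_contra hv0
      obtain ⟨c, c', hcc⟩ := hcon (fun i => - (v (some i) / v none))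
      apply hcc
      have h := hv c c'
      rw [hsum] at h
      have h3 : XX D.Z (fun i => - (v (some i) / v none)) c c' =
          - (XX D.Z (fun i => v (some i)) c c' / v none) := by
        unfold XX
        rw [Finset.sum_div, ← Finset.sum_neg_distrib]
        refine Finset.sum_congr rfl fun i _ => ?_
        ring
      rw [h3]
      field_simp
      linarith
    have h4 := D.inj_of_lt hlt (fun i => v (some i)) (fun c c' => by
      have h := hv c c'
      rw [hsum, hv0] at h
      linarith)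
    funext i
    cases i with
    | none => exact hv0
    | some i => exact congrFun h4 i
  have cneg := (count_neg y hy D.cf D.cf_symm 0 (fun _ => 1) hid inj).2 le_rfl
  have cpos := (count_pos y hy D.cf D.cf_symm 0 (fun _ => 1) hid inj).2 le_rfl
  rw [Fintype.card_option, Fintype.card_fin] at cneg cpos
  obtain ⟨C, hC1, hC2⟩ : ∃ C, (d + 1).choose 2 = d + C ∧ 2 * C = d * (d - 1) := by
    refine ⟨d.choose 2, ?_, ?_⟩
    · rw [Nat.choose_succ_succ]; simp
    · rw [Nat.choose_two_right, Nat.mul_div_cancel' (Nat.even_mul_pred_self d).two_dvd]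
  have hcount := D.cf_count c1 c2 hne h1 h2 hoth
  have hsub : (pairs fun c c' => D.cf c c' ≠ 0) ⊆
      (pairs fun c c' => 0 < D.cf c c') ∪ (pairs fun c c' => D.cf c c' < 0) := by
    intro p hp
    induction p using Sym2.ind with
    | _ a b =>
      rw [mem_pairs (R := fun c c' => D.cf c c' ≠ 0)
        (fun c c' h => by rw [D.cf_symm]; exact h)] at hp
      rw [mem_union, mem_pairs (R := fun c c' => 0 < D.cf c c')
        (fun c c' h => by rw [D.cf_symm]; exact h), mem_pairs (R := fun c c' => D.cf c c' < 0)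
        (fun c c' h => by rw [D.cf_symm]; exact h)]
      rcases lt_or_gt_of_ne hp with h | h
      · exact Or.inr h
      · exact Or.inl h
  have hle := (Finset.card_le_card hsub).trans (Finset.card_union_le _ _)
  omega

/-- the tight frame identity -/
lemma frame_id (hb : D.b = 0) (hlt : 1 < (D.a + D.b) ^ 2) (hn : d * (d - 1) < 2 * n)
    (c1 c2 : Fin d) (hne : c1 ≠ c2) (h1 : 0 < D.θ c1) (h2 : D.θ c2 < 0)
    (hoth : ∀ c, c ≠ c1 → c ≠ c2 → D.θ c = 0) (z : Fin d → ℝ) (hz1 : z c1 = 0) (hz2 : z c2 = 0)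
    (j : Fin n) :
    ∑ i, (D.B i j * D.B i j) * (D.a ^ 2 * (∑ c, z c * D.Z c i) ^ 2 - ∑ c, z c * z c) = 0 := by
  obtain ⟨v, hv⟩ := D.span_main hb hlt hn c1 c2 hne h1 h2 hoth z hz1 hz2
  have ha0 : D.a ≠ 0 := by
    intro h
    have := D.hab
    rw [h, hb] at this
    norm_num at this
  have hzθ : ∀ c, D.θ c * z c = 0 := by
    intro c
    by_cases g1 : c = c1
    · rw [g1, hz1]; ring
    by_cases g2 : c = c2
    · rw [g2, hz2]; ring
    rw [hoth c g1 g2]; ring
  have hzτ : ∀ c, D.τ c * z c = D.a * z c := by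
    intro c
    unfold τ
    rw [hb]
    linear_combination (D.α - D.β) * hzθ c
  have hsumv : ∑ i, v i = ∑ c, z c * z c := by
    rw [← D.trace_XX v]
    exact Finset.sum_congr rfl fun c _ => hv c c
  have hvj : ∀ i, ((D.a + D.b) ^ 2 - 1) * v i =
      D.a ^ 2 * (∑ c, z c * D.Z c i) ^ 2 - ∑ c, z c * z c := by
    intro i
    have h := sq_column D.Z D.τ _ D.sq_τ v i
    rw [hsumv] at h
    have h3 : ∑ c, ∑ c', D.τ c * D.τ c' * XX D.Z v c c' * (D.Z c i * D.Z c' i) =
        D.a ^ 2 * (∑ c, z c * D.Z c i) ^ 2 := by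
      rw [pow_two (∑ c, z c * D.Z c i), Finset.sum_mul_sum, Finset.mul_sum]
      refine Finset.sum_congr rfl fun c _ => ?_
      rw [Finset.mul_sum]
      refine Finset.sum_congr rfl fun c' _ => ?_
      rw [hv]
      calc D.τ c * D.τ c' * (z c * z c') * (D.Z c i * D.Z c' i) =
          (D.τ c * z c) * (D.τ c' * z c') * (D.Z c i * D.Z c' i) := by ring
        _ = (D.a * z c) * (D.a * z c') * (D.Z c i * D.Z c' i) := by rw [hzτ, hzτ]
        _ = _ := by ring
    rw [h3] at h
    linarith
  have hB : ∑ i, (D.B i j * D.B i j) * v i = 0 := by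
    have h3 : D.a ^ 2 * ∑ i, (D.B i j * D.B i j) * v i =
        ∑ c, ∑ c', (D.θ c * D.θ c') * XX D.Z v c c' * (D.Z c j * D.Z c' j) := by
      have h4 : ∀ i, D.a ^ 2 * ((D.B i j * D.B i j) * v i) =
          ∑ c, ∑ c', (D.θ c * D.θ c') * (v i * (D.Z c i * D.Z c' i)) * (D.Z c j * D.Z c' j) := by
        intro i
        have h5 := D.gram_θ hb i j
        calc D.a ^ 2 * ((D.B i j * D.B i j) * v i) = v i * ((D.a * D.B i j) * (D.a * D.B i j)) := by
              ring
          _ = v i * ((∑ c, D.θ c * (D.Z c i * D.Z c j)) *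
                (∑ c', D.θ c' * (D.Z c' i * D.Z c' j))) := by rw [h5]
          _ = _ := by
              rw [Finset.sum_mul_sum, Finset.mul_sum]
              refine Finset.sum_congr rfl fun c _ => ?_
              rw [Finset.mul_sum]
              refine Finset.sum_congr rfl fun c' _ => ?_
              ring
      rw [Finset.mul_sum]
      simp_rw [h4]
      rw [Finset.sum_comm]
      refine Finset.sum_congr rfl fun c _ => ?_
      rw [Finset.sum_comm]
      refine Finset.sum_congr rfl fun c' _ => ?_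
      unfold XX
      rw [Finset.mul_sum, Finset.sum_mul]
    have h6 : ∀ c c', (D.θ c * D.θ c') * XX D.Z v c c' * (D.Z c j * D.Z c' j) = 0 := by
      intro c c'
      rw [hv]
      calc D.θ c * D.θ c' * (z c * z c') * (D.Z c j * D.Z c' j) =
          (D.θ c * z c) * (D.θ c' * z c') * (D.Z c j * D.Z c' j) := by ring
        _ = 0 := by rw [hzθ]; ring
    simp only [h6, Finset.sum_const_zero] at h3
    rcases mul_eq_zero.1 h3 with h | h
    · exact absurd h (pow_ne_zero 2 ha0)
    · exact h
  calc ∑ i, (D.B i j * D.B i j) * (D.a ^ 2 * (∑ c, z c * D.Z c i) ^ 2 - ∑ c, z c * z c) =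
      ∑ i, ((D.a + D.b) ^ 2 - 1) * ((D.B i j * D.B i j) * v i) := by
        refine Finset.sum_congr rfl fun i _ => ?_
        rw [← hvj i]; ring
    _ = 0 := by rw [← Finset.mul_sum, hB, mul_zero]

/-- consequence of the tight frame identity -/
lemma frame_zero (hb : D.b = 0) (hlt : 1 < (D.a + D.b) ^ 2) (hn : d * (d - 1) < 2 * n)
    (c1 c2 : Fin d) (hne : c1 ≠ c2) (h1 : 0 < D.θ c1) (h2 : D.θ c2 < 0)
    (hoth : ∀ c, c ≠ c1 → c ≠ c2 → D.θ c = 0) (z : Fin d → ℝ) (hz1 : z c1 = 0) (hz2 : z c2 = 0)
    (i0 j : Fin n) (hij : D.B i0 j ≠ 0)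
    (hz : ∀ i, D.B i j ≠ 0 → ∑ c, z c * D.Z c i = 0) : z = 0 := by
  have h := D.frame_id hb hlt hn c1 c2 hne h1 h2 hoth z hz1 hz2 j
  have h3 : ∀ i, (D.B i j * D.B i j) * (D.a ^ 2 * (∑ c, z c * D.Z c i) ^ 2 - ∑ c, z c * z c) =
      - ((D.B i j * D.B i j) * ∑ c, z c * z c) := by
    intro i
    by_cases hB : D.B i j = 0
    · rw [hB]; ring
    · rw [hz i hB]; ring
  simp_rw [h3] at h
  rw [Finset.sum_neg_distrib, neg_eq_zero, ← Finset.sum_mul] at h
  have hpos : 0 < ∑ i, D.B i j * D.B i j :=
    Finset.sum_pos' (fun i _ => mul_self_nonneg _) ⟨i0, mem_univ _, mul_self_pos.2 hij⟩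
  rcases mul_eq_zero.1 h with h | h
  · exact absurd h hpos.ne'
  · by_contra hz0
    exact (sum_sq_pos hz0).ne' h

/-- The rank-two case with zero diagonal and `b = 0` is impossible. -/
lemma caseN2ii (hd : 4 ≤ d) (hb : D.b = 0) (hlt : 1 < (D.a + D.b) ^ 2)
    (hn : d * (d - 1) < 2 * n)
    (c1 c2 : Fin d) (hne : c1 ≠ c2) (h1 : 0 < D.θ c1) (h2 : D.θ c2 < 0)
    (hoth : ∀ c, c ≠ c1 → c ≠ c2 → D.θ c = 0) : False := by
  classical
  have ha0 : D.a ≠ 0 := by
    intro h
    have := D.hab
    rw [h, hb] at this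
    norm_num at this
  set p : ℝ := D.θ c1 with hp
  set q : ℝ := - D.θ c2 with hq
  have hq0 : 0 < q := by rw [hq]; linarith
  set u : Fin n → ℝ := D.Z c1 with hu
  set w : Fin n → ℝ := D.Z c2 with hw
  -- splitting off the two special coordinates
  have split : ∀ f : Fin d → ℝ, ∑ c, (if c = c1 ∨ c = c2 then 0 else f c) =
      ∑ c, f c - f c1 - f c2 := by
    intro f
    have e : ∑ c, (f c - (if c = c1 ∨ c = c2 then 0 else f c)) = f c1 + f c2 := by
      rw [Fintype.sum_eq_add c1 c2 hne]
      · simp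
      · rintro c ⟨g1, g2⟩
        rw [if_neg (by tauto)]; ring
    rw [Finset.sum_sub_distrib] at e
    linarith
  have hM : ∀ i j, p * (u i * u j) - q * (w i * w j) = D.a * D.B i j := by
    intro i j
    rw [← D.gram_θ hb i j, Fintype.sum_eq_add c1 c2 hne]
    · rw [hp, hq, hu, hw]; ring
    · rintro c ⟨g1, g2⟩
      rw [hoth c g1 g2]; ring
  have hMd : ∀ i, p * (u i * u i) = q * (w i * w i) := by
    intro i
    have := hM i i
    rw [D.hB0] at this
    linarith
  -- for a B-pair the two terms are opposite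
  have hopp : ∀ i j, D.B i j ≠ 0 → p * (u i * u j) = - (q * (w i * w j)) := by
    intro i j hB
    have e1 : (p * (u i * u j)) * (p * (u i * u j)) = (q * (w i * w j)) * (q * (w i * w j)) := by
      calc (p * (u i * u j)) * (p * (u i * u j)) = (p * (u i * u i)) * (p * (u j * u j)) := by ring
        _ = (q * (w i * w i)) * (q * (w j * w j)) := by rw [hMd i, hMd j]
        _ = _ := by ring
    rcases mul_self_eq_mul_self_iff.1 e1 with e | e
    · exfalso
      have := hM i j
      rw [e, sub_self] at this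
      exact mul_ne_zero ha0 hB this.symm
    · exact e
  have hne0 : ∀ i j, D.B i j ≠ 0 → p * (u i * u j) ≠ 0 := by
    intro i j hB h
    have e1 := hopp i j hB
    have e2 := hM i j
    rw [h] at e1
    have e3 : q * (w i * w j) = 0 := by linarith
    rw [h, e3] at e2
    exact mul_ne_zero ha0 hB (by linarith)
  have hBne : ∀ i j, D.B i j ≠ 0 → i ≠ j := by
    intro i j hB h
    rw [h, D.hB0] at hB
    exact hB rfl
  -- the inner products of the main parts of a B-pair
  have hmain : ∀ i j, D.B i j ≠ 0 → ∑ c, (if c = c1 ∨ c = c2 then 0 else D.Z c i * D.Z c j) =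
      - (D.ga c1 * (u i * u j)) - D.ga c2 * (w i * w j) := by
    intro i j hB
    have e1 := D.gram_ga hb i j
    rw [if_neg (hBne i j hB), (D.B_ne i j (hBne i j hB) hB).2] at e1
    have e2 := split fun c => D.ga c * (D.Z c i * D.Z c j)
    rw [e1] at e2
    have e3 : ∀ c, (if c = c1 ∨ c = c2 then 0 else D.ga c * (D.Z c i * D.Z c j)) =
        (if c = c1 ∨ c = c2 then 0 else D.Z c i * D.Z c j) := by
      intro c
      split_ifs with g
      · rfl
      · push Not at g
        unfold ga
        rw [hoth c g.1 g.2]; ring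
    simp_rw [e3] at e2
    rw [e2, hu, hw]; ring
  obtain ⟨i0, j0, hij0, hB0⟩ := D.exB
  have hsymm : ∀ i j, D.B i j ≠ 0 → D.B j i ≠ 0 := fun i j h => by rw [D.hBs]; exact h
  have hu0 : ∀ i j, D.B i j ≠ 0 → u i ≠ 0 ∧ u j ≠ 0 := by
    intro i j hB
    have := hne0 i j hB
    constructor
    · intro h; apply this; rw [h]; ring
    · intro h; apply this; rw [h]; ring
  have hw0 : ∀ i j, D.B i j ≠ 0 → w i ≠ 0 ∧ w j ≠ 0 := by
    intro i j hB
    have h3 := hne0 i j hB
    have h4 := hopp i j hB
    constructor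
    · intro h; apply h3; rw [h4, h]; ring
    · intro h; apply h3; rw [h4, h]; ring
  -- step 1: the neighbours of `i0` have proportional main parts
  have step1 : ∀ j', D.B i0 j' ≠ 0 → ∀ c, c ≠ c1 → c ≠ c2 →
      u j0 * D.Z c j' = u j' * D.Z c j0 := by
    intro j' hj'
    let y : Fin d → ℝ := fun c => if c = c1 ∨ c = c2 then 0 else
      u j0 * D.Z c j' - u j' * D.Z c j0
    have hy : y = 0 := by
      refine D.frame_zero hb hlt hn c1 c2 hne h1 h2 hoth y (by simp [y]) (by simp [y])
        i0 j0 hB0 ?_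
      intro i hi
      -- `B i j' ≠ 0`
      have e1 := hopp i0 j0 hB0
      have e2 := hopp i0 j' hj'
      have e3 := hopp i j0 hi
      have e4 : p * (u i * u j') = - (q * (w i * w j')) := by
        have e5 := hne0 i0 j0 hB0
        apply mul_right_cancel₀ e5
        calc p * (u i * u j') * (p * (u i0 * u j0)) = (p * (u i * u j0)) * (p * (u i0 * u j')) := by
              ring
          _ = (- (q * (w i * w j0))) * (- (q * (w i0 * w j'))) := by rw [e3, e2]
          _ = - (q * (w i * w j')) * (- (q * (w i0 * w j0))) := by ring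
          _ = - (q * (w i * w j')) * (p * (u i0 * u j0)) := by rw [e1]
      have hBij' : D.B i j' ≠ 0 := by
        intro h
        have e6 := hM i j'
        rw [h, mul_zero] at e6
        have e7 : p * (u i * u j') = 0 := by linarith
        have g1 := (hu0 i j0 hi).1
        have g2 := (hu0 i0 j' hj').2
        exact mul_ne_zero h1.ne' (mul_ne_zero g1 g2) e7
      have m1 := hmain j' i (hsymm _ _ hBij')
      have m2 := hmain j0 i (hsymm _ _ hi)
      have e8 : ∑ c, y c * D.Z c i =
          u j0 * ∑ c, (if c = c1 ∨ c = c2 then 0 else D.Z c j' * D.Z c i) -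
          u j' * ∑ c, (if c = c1 ∨ c = c2 then 0 else D.Z c j0 * D.Z c i) := by
        rw [Finset.mul_sum, Finset.mul_sum, ← Finset.sum_sub_distrib]
        refine Finset.sum_congr rfl fun c _ => ?_
        simp only [y]
        split_ifs
        · ring
        · ring
      rw [e8, m1, m2]
      -- `u j0 * w j' = u j' * w j0`
      have e9 : u j0 * w j' = u j' * w j0 := by
        have g1 := (hw0 i0 j0 hB0).1
        have g3 : q * w i0 ≠ 0 := mul_ne_zero hq0.ne' g1
        apply mul_left_cancel₀ g3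
        calc q * w i0 * (u j0 * w j') = u j0 * (q * (w i0 * w j')) := by ring
          _ = - (u j0 * (p * (u i0 * u j'))) := by rw [e2]; ring
          _ = - (u j' * (p * (u i0 * u j0))) := by ring
          _ = q * w i0 * (u j' * w j0) := by rw [e1]; ring
      linear_combination (-(D.ga c2) * w i) * e9
    intro c g1 g2
    have := congrFun hy c
    simp only [y, Pi.zero_apply] at this
    rw [if_neg (by tauto)] at this
    linarith
  -- step 2: choose a main vector orthogonal to the main part of `j0`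
  obtain ⟨z, hz0, hz⟩ := exists_ker (ι := Fin d) (κ := Fin 3)
    (fun k c => if k = 0 then (if c = c1 then 1 else 0) else
      if k = 1 then (if c = c2 then 1 else 0) else D.Z c j0) (by simp; omega)
  have hz1 : z c1 = 0 := by simpa using hz 0
  have hz2 : z c2 = 0 := by simpa using hz 1
  have hz3 : ∑ c, z c * D.Z c j0 = 0 := by simpa using hz 2
  apply hz0
  refine D.frame_zero hb hlt hn c1 c2 hne h1 h2 hoth z hz1 hz2 j0 i0 (hsymm _ _ hB0) ?_
  intro j' hj'
  have hj'' := hsymm _ _ hj'
  have g1 := (hu0 i0 j0 hB0).2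
  apply mul_left_cancel₀ g1
  rw [mul_zero, Finset.mul_sum]
  calc ∑ c, u j0 * (z c * D.Z c j') = ∑ c, u j' * (z c * D.Z c j0) := by
        refine Finset.sum_congr rfl fun c _ => ?_
        by_cases g2 : c = c1
        · rw [g2, hz1]; ring
        by_cases g3 : c = c2
        · rw [g3, hz2]; ring
        have := step1 j' hj'' c g2 g3
        linear_combination z c * this
    _ = 0 := by rw [← Finset.mul_sum, hz3, mul_zero]

end BData

end Pool.Agent.W5h16.Biang
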