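import Pool.Agent.W5h16.Biang.CaseD2
import Pool.Agent.W5h16.Biang.RankTwoC

/-!
The core theorem: diagonalised data with many vectors projects to a spherical two-distance set.
-/

namespace Pool.Agent.W5h16.Biang

open Finset

namespace BData

variable {n d : ℕ} (D : BData n d)

lemma not_both_one (h1 : (D.a + D.b) ^ 2 = 1) (h2 : (D.a - D.b) ^ 2 = 1) : False := by
  have hab : D.a * D.b = 0 := by nlinarith
  have hs : D.a ^ 2 + D.b ^ 2 = 1 := by nlinarith
  have h := D.hab
  rcases mul_eq_zero.1 hab with g | g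
  · rw [g] at h hs
    have hb : D.b ^ 2 = 1 := by linarith
    have e : D.b * D.β = -1 := by linarith
    have e2 : D.β ^ 2 = 1 := by
      have : (D.b * D.β) ^ 2 = 1 := by rw [e]; norm_num
      rw [mul_pow, hb, one_mul] at this
      exact this
    have := D.hβ
    rw [← sq_lt_one_iff_abs_lt_one] at this
    linarith
  · rw [g] at h hs
    have ha : D.a ^ 2 = 1 := by linarith
    have e : D.a * D.α = -1 := by linarith
    have e2 : D.α ^ 2 = 1 := by
      have : (D.a * D.α) ^ 2 = 1 := by rw [e]; norm_num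
      rw [mul_pow, ha, one_mul] at this
      exact this
    have := D.hα
    rw [← sq_lt_one_iff_abs_lt_one] at this
    linarith

/-- The nondegenerate case is impossible. -/
lemma nondeg_false (hd : 7 ≤ d) (hn : d * (d - 1) < 2 * n) (h1 : 1 < (D.a + D.b) ^ 2)
    (h2 : 1 < (D.a - D.b) ^ 2) : False := by
  obtain ⟨θs, hU, hV⟩ := D.structure_thm hd hn h1 h2
  obtain ⟨c1, c2, hne, hc1, hc2, hoth⟩ := D.exists_coords (by omega) θs hU hV
  have hM := D.pencil_matrix θs c1 c2 hne hoth
  have hab := D.hab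
  have hx : (-θs) + (-(D.b + θs * D.α)) * D.a + (D.a - θs * D.β) * D.b = 0 := by
    linear_combination (-θs) * hab
  have hdn : 4 * (d + 1) < 2 * n := by
    have : 4 * (d + 1) ≤ d * (d - 1) := by
      obtain ⟨e, rfl⟩ : ∃ e, d = e + 7 := ⟨d - 7, by omega⟩
      have : e + 7 - 1 = e + 6 := by omega
      rw [this]; nlinarith
    omega
  by_cases hθ : θs = 0
  · -- zero diagonal
    subst hθ
    by_cases hp : D.θ c1 = 0 ∨ D.θ c2 = 0
    · obtain ⟨⟨r1, hr1⟩, ⟨r2, hr2⟩⟩ := D.sq_rel _ _ _ _ _ _ _ hM
      have hpq : (D.θ c1 - 0) * (0 - D.θ c2) = 0 := by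
        rcases hp with h | h <;> rw [h] <;> ring
      rw [hpq] at hr1 hr2
      refine D.key_contra h1 h2 _ _ _ hx ?_ (by rw [hr1]; ring) (by rw [hr2]; ring)
      rintro ⟨_, g1, g2⟩
      have e1 : D.b = 0 := by linarith
      have e2 : D.a = 0 := by linarith
      rw [e1, e2] at hab
      norm_num at hab
    · push Not at hp
      have hp1 : 0 < D.θ c1 := lt_of_le_of_ne hc1 hp.1.symm
      have hp2 : D.θ c2 < 0 := lt_of_le_of_ne hc2 hp.2
      have hab0 : D.a = 0 ∨ D.b = 0 := by
        by_contra hcon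
        push Not at hcon
        have hdet := D.det_tri _ _ _ _ _ _ _ hM ⟨0, by omega⟩ ⟨1, by omega⟩ ⟨2, by omega⟩
          (by simp) (by simp) (by simp)
        simp only [neg_zero, zero_mul, sub_zero, zero_add, add_zero] at hdet
        have hnz : ∀ i j, i ≠ j → -D.b * D.A i j + D.a * D.B i j ≠ 0 := by
          intro i j hij
          rcases D.A_or_B i j hij with g | g
          · rw [g.2.2, mul_zero, add_zero]
            exact mul_ne_zero (neg_ne_zero.2 hcon.2) g.1
          · rw [g.2.2, mul_zero, zero_add]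
            exact mul_ne_zero hcon.1 g.1
        have e1 := hnz ⟨0, by omega⟩ ⟨1, by omega⟩ (by simp)
        have e2 := hnz ⟨1, by omega⟩ ⟨2, by omega⟩ (by simp)
        have e3 := hnz ⟨0, by omega⟩ ⟨2, by omega⟩ (by simp)
        exact mul_ne_zero two_ne_zero (mul_ne_zero (mul_ne_zero e1 e2) e3) hdet
      rcases hab0 with h | h
      · refine D.swap.caseN2ii (by omega) h ?_ hn c2 c1 hne.symm ?_ ?_ ?_
        · change 1 < (D.b + D.a) ^ 2
          rw [add_comm]; exact h1
        · change 0 < - D.θ c2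
          linarith
        · change - D.θ c1 < 0
          linarith
        · intro c g1 g2
          change - D.θ c = 0
          rw [hoth c g2 g1, neg_zero]
      · exact D.caseN2ii (by omega) h h1 hn c1 c2 hne hp1 hp2 hoth
  · have := D.caseN2i (by omega) h1 h2 (-θs) (-(D.b + θs * D.α)) (D.a - θs * D.β)
      (D.θ c1 - θs) (θs - D.θ c2) (D.Z c1) (D.Z c2) (by linarith) (by linarith) hM hx
      (neg_ne_zero.2 hθ)
    omega

include D in
/-- The core theorem. -/
theorem core (hd : 7 ≤ d) (hn : d * (d - 1) < 2 * n) : TwoDist n (d - 1) := by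
  have hdd : d * d + 4 < 2 * (d * (d - 1)) := by
    obtain ⟨e, rfl⟩ : ∃ e, d = e + 7 := ⟨d - 7, by omega⟩
    have : e + 7 - 1 = e + 6 := by omega
    rw [this]; nlinarith
  have hn2 : 2 ≤ n := by
    have : 42 ≤ d * (d - 1) := by
      obtain ⟨e, rfl⟩ : ∃ e, d = e + 7 := ⟨d - 7, by omega⟩
      have : e + 7 - 1 = e + 6 := by omega
      rw [this]; nlinarith
    omega
  have g1 : 1 ≤ (D.a + D.b) ^ 2 := by
    by_contra h
    push Not at h
    have := D.bound_of_lt h
    omega
  have g2 : 1 ≤ (D.a - D.b) ^ 2 := by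
    by_contra h
    push Not at h
    have := D.negB.bound_of_lt (by
      change (D.a + -D.b) ^ 2 < 1
      rw [← sub_eq_add_neg]; exact h)
    omega
  rcases eq_or_lt_of_le g1 with e1 | e1
  · rcases eq_or_lt_of_le g2 with e2 | e2
    · exact absurd (D.not_both_one e1.symm e2.symm) id
    · rcases D.caseD hn2 e1.symm e2 with h | h
      · omega
      · exact h
  · rcases eq_or_lt_of_le g2 with e2 | e2
    · rcases D.negB.caseD hn2 (by
        change (D.a + -D.b) ^ 2 = 1
        rw [← sub_eq_add_neg]; exact e2.symm) (by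
        change 1 < (D.a - -D.b) ^ 2
        rw [sub_neg_eq_add]; exact e1) with h | h
      · omega
      · exact h
    · exact absurd (D.nondeg_false hd hn e1 e2) id

end BData

end Pool.Agent.W5h16.Biang
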