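import Pool.Agent.W5h16.Biang.Data

/-!
Counting of positive and negative pairs.
-/

namespace Pool.Agent.W5h16.Biang

open Finset

variable {d : ℕ}

/-- the set of ordered pairs with property `R` -/
noncomputable def ordPairs (R : Fin d → Fin d → Prop) : Finset (Fin d × Fin d) := by
  classical
  exact univ.filter fun x => R x.1 x.2

/-- the set of unordered pairs with property `R` -/
noncomputable def pairs (R : Fin d → Fin d → Prop) : Finset (Sym2 (Fin d)) := by
  classical
  exact (ordPairs R).image fun x => s(x.1, x.2)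

lemma mem_ordPairs {R : Fin d → Fin d → Prop} {x : Fin d × Fin d} :
    x ∈ ordPairs R ↔ R x.1 x.2 := by
  classical
  simp [ordPairs]

lemma mem_pairs {R : Fin d → Fin d → Prop} (hR : ∀ c c', R c c' → R c' c) {c c' : Fin d} :
    s(c, c') ∈ pairs R ↔ R c c' := by
  classical
  unfold pairs
  simp only [mem_image, mem_ordPairs]
  constructor
  · rintro ⟨x, hx, hxc⟩
    rw [Sym2.eq_iff] at hxc
    rcases hxc with ⟨h, h'⟩ | ⟨h, h'⟩ <;> rw [← h, ← h']
    · exact hx
    · exact hR _ _ hx
  · intro h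
    exact ⟨(c, c'), h, rfl⟩

lemma card_ordPairs_le (R : Fin d → Fin d → Prop) : (ordPairs R).card ≤ 2 * (pairs R).card := by
  classical
  unfold pairs
  apply Finset.card_le_mul_card_image
  intro p hp
  induction p using Sym2.ind with
  | _ a b =>
    have : (ordPairs R).filter (fun x => s(x.1, x.2) = s(a, b)) ⊆ {(a, b), (b, a)} := by
      intro x hx
      simp only [mem_filter, Sym2.eq_iff] at hx
      simp only [mem_insert, mem_singleton]
      rcases hx.2 with ⟨h, h'⟩ | ⟨h, h'⟩
      · left; exact Prod.ext h h'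
      · right; exact Prod.ext h h'
    exact (Finset.card_le_card this).trans Finset.card_le_two

lemma card_ordPairs (R : Fin d → Fin d → Prop) [∀ c, DecidablePred (R c)] :
    (ordPairs R).card = ∑ c, (univ.filter (R c)).card := by
  classical
  unfold ordPairs
  rw [Finset.card_filter, Fintype.sum_prod_type]
  refine Finset.sum_congr rfl fun c _ => ?_
  rw [Finset.card_filter]
  refine Finset.sum_congr rfl fun c' _ => ?_
  congr

lemma card_sym2_fin : Fintype.card (Sym2 (Fin d)) = (d + 1).choose 2 := by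
  rw [Sym2.card, Fintype.card_fin]

/-- The main inertia bound. -/
lemma count_neg {ι : Type*} [Fintype ι] (y : ι → Fin d → Fin d → ℝ)
    (hy : ∀ i c c', y i c c' = y i c' c) (W : Fin d → Fin d → ℝ)
    (hW : ∀ c c', W c c' = W c' c) (k : ℝ) (ℓ : ι → ℝ)
    (hid : ∀ v : ι → ℝ, ∑ c, ∑ c', W c c' * (∑ i, v i * y i c c') * (∑ i, v i * y i c c') =
      k * (∑ i, v i * ℓ i) * (∑ i, v i * ℓ i))
    (inj : ∀ v : ι → ℝ, (∀ c c', ∑ i, v i * y i c c' = 0) → v = 0) :
    Fintype.card ι + (pairs fun c c' => W c c' < 0).card ≤ (d + 1).choose 2 + 1 ∧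
      (0 ≤ k → Fintype.card ι + (pairs fun c c' => W c c' < 0).card ≤ (d + 1).choose 2) := by
  classical
  set N := pairs fun c c' => W c c' < 0 with hN
  have hNc : ∀ c c', s(c, c') ∈ N ↔ W c c' < 0 := by
    intro c c'
    rw [hN]
    exact mem_pairs (R := fun c c' => W c c' < 0) fun c c' h => by rw [hW]; exact h
  have hcompl : Nᶜ.card + N.card = (d + 1).choose 2 := by
    rw [← card_sym2_fin]
    exact Finset.card_compl_add_card N
  -- the key contradiction
  have key : ∀ v : ι → ℝ, v ≠ 0 → (∀ c c', s(c, c') ∈ Nᶜ → ∑ i, v i * y i c c' = 0) →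
      ¬ (0 ≤ k * (∑ i, v i * ℓ i) * (∑ i, v i * ℓ i)) := by
    intro v hv0 hv hk
    apply hv0
    apply inj
    have hle : ∀ c ∈ (univ : Finset (Fin d)), ∀ c' ∈ (univ : Finset (Fin d)),
        W c c' * (∑ i, v i * y i c c') * (∑ i, v i * y i c c') ≤ 0 := by
      intro c _ c' _
      by_cases hc : W c c' < 0
      · rw [mul_assoc]
        exact mul_nonpos_of_nonpos_of_nonneg hc.le (mul_self_nonneg _)
      · rw [hv c c' (by rw [Finset.mem_compl, hNc]; exact hc)]
        simp
    have hs : ∑ c, ∑ c', W c c' * (∑ i, v i * y i c c') * (∑ i, v i * y i c c') = 0 := by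
      apply le_antisymm
      · exact Finset.sum_nonpos fun c hc => Finset.sum_nonpos (hle c hc)
      · rw [hid]; exact hk
    intro c c'
    by_cases hc : W c c' < 0
    · have h5 := (Finset.sum_eq_zero_iff_of_nonpos
        (fun c hc => Finset.sum_nonpos (hle c hc))).1 hs c (mem_univ c)
      have h6 := (Finset.sum_eq_zero_iff_of_nonpos (hle c (mem_univ c))).1 h5 c' (mem_univ c')
      rcases mul_eq_zero.1 h6 with h7 | h7
      · rcases mul_eq_zero.1 h7 with h8 | h8
        · exact absurd h8 hc.ne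
        · exact h8
      · exact h7
    · exact hv c c' (by rw [Finset.mem_compl, hNc]; exact hc)
  constructor
  · by_contra hcon
    obtain ⟨v, hv0, hv⟩ := exists_ker (ι := ι) (κ := Option (Nᶜ : Finset (Sym2 (Fin d))))
      (fun p i => match p with
        | none => ℓ i
        | some p => Sym2.lift ⟨fun c c' => y i c c', fun _ _ => hy _ _ _⟩ p.1)
      (by rw [Fintype.card_option, Fintype.card_coe]; omega)
    refine key v hv0 (fun c c' hc => ?_) ?_
    · exact hv (some ⟨s(c, c'), hc⟩)
    · have h0 : ∑ i, v i * ℓ i = 0 := hv none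
      rw [h0]; simp
  · intro hk
    by_contra hcon
    obtain ⟨v, hv0, hv⟩ := exists_ker (ι := ι) (κ := (Nᶜ : Finset (Sym2 (Fin d))))
      (fun p i => Sym2.lift ⟨fun c c' => y i c c', fun _ _ => hy _ _ _⟩ p.1)
      (by rw [Fintype.card_coe]; omega)
    refine key v hv0 (fun c c' hc => ?_) ?_
    · exact hv ⟨s(c, c'), hc⟩
    · rw [mul_assoc]
      exact mul_nonneg hk (mul_self_nonneg _)

lemma count_pos {ι : Type*} [Fintype ι] (y : ι → Fin d → Fin d → ℝ)
    (hy : ∀ i c c', y i c c' = y i c' c) (W : Fin d → Fin d → ℝ)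
    (hW : ∀ c c', W c c' = W c' c) (k : ℝ) (ℓ : ι → ℝ)
    (hid : ∀ v : ι → ℝ, ∑ c, ∑ c', W c c' * (∑ i, v i * y i c c') * (∑ i, v i * y i c c') =
      k * (∑ i, v i * ℓ i) * (∑ i, v i * ℓ i))
    (inj : ∀ v : ι → ℝ, (∀ c c', ∑ i, v i * y i c c' = 0) → v = 0) :
    Fintype.card ι + (pairs fun c c' => 0 < W c c').card ≤ (d + 1).choose 2 + 1 ∧
      (k ≤ 0 → Fintype.card ι + (pairs fun c c' => 0 < W c c').card ≤ (d + 1).choose 2) := by
  have h := count_neg y hy (fun c c' => - W c c') (fun c c' => by rw [hW]) (-k) ℓ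
    (fun v => by
      have := hid v
      simp only [neg_mul, Finset.sum_neg_distrib]
      rw [this]) inj
  simp only [neg_lt_zero, Left.nonneg_neg_iff] at h
  exact h

end Pool.Agent.W5h16.Biang
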