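import Pool.Agent.W5h16.Biang.Basic

/-!
The diagonalised data of a one-parameter pencil of Gram matrices of biangular lines.
-/

namespace Pool.Agent.W5h16.Biang

open Finset

/-- Diagonalised data. -/
structure BData (n d : ℕ) where
  Z : Fin d → Fin n → ℝ
  θ : Fin d → ℝ
  A : Fin n → Fin n → ℝ
  B : Fin n → Fin n → ℝ
  α : ℝ
  β : ℝ
  a : ℝ
  b : ℝ
  hAB : ∀ i j, i ≠ j → ((A i j = 1 ∨ A i j = -1) ∧ B i j = 0) ∨
    (A i j = 0 ∧ (B i j = 1 ∨ B i j = -1))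
  hA0 : ∀ i, A i i = 0
  hB0 : ∀ i, B i i = 0
  hAs : ∀ i j, A i j = A j i
  hBs : ∀ i j, B i j = B j i
  hG : ∀ i j, ∑ c, Z c i * Z c j = (if i = j then 1 else 0) + α * A i j + β * B i j
  hT : ∀ i j, ∑ c, θ c * (Z c i * Z c j) = a * B i j - b * A i j
  hab : a * α + b * β = -1
  hα : |α| < 1
  hβ : |β| < 1
  exA : ∃ i j, i ≠ j ∧ A i j ≠ 0
  exB : ∃ i j, i ≠ j ∧ B i j ≠ 0

namespace BData

variable {n d : ℕ} (D : BData n d)

/-- Interchanging the two angles. -/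
def swap : BData n d where
  Z := D.Z
  θ := fun c => - D.θ c
  A := D.B
  B := D.A
  α := D.β
  β := D.α
  a := D.b
  b := D.a
  hAB := fun i j h => by
    rcases D.hAB i j h with h | h
    · exact Or.inr ⟨h.2, h.1⟩
    · exact Or.inl ⟨h.2, h.1⟩
  hA0 := D.hB0
  hB0 := D.hA0
  hAs := D.hBs
  hBs := D.hAs
  hG := fun i j => by rw [D.hG i j]; ring
  hT := fun i j => by
    have := D.hT i j
    simp only [neg_mul, Finset.sum_neg_distrib, this]
    ring
  hab := by have := D.hab; linarith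
  hα := D.hβ
  hβ := D.hα
  exA := D.exB
  exB := D.exA

/-- Changing the sign of the second angle. -/
def negB : BData n d where
  Z := D.Z
  θ := fun c => - D.θ c
  A := D.A
  B := fun i j => - D.B i j
  α := D.α
  β := - D.β
  a := D.a
  b := - D.b
  hAB := fun i j h => by
    rcases D.hAB i j h with h | h
    · exact Or.inl ⟨h.1, by simp [h.2]⟩
    · refine Or.inr ⟨h.1, ?_⟩
      rcases h.2 with h | h
      · right; simp [h]
      · left; simp [h]
  hA0 := D.hA0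
  hB0 := fun i => by simp [D.hB0]
  hAs := D.hAs
  hBs := fun i j => by simp [D.hBs i j]
  hG := fun i j => by rw [D.hG i j]; ring
  hT := fun i j => by
    have := D.hT i j
    simp only [neg_mul, Finset.sum_neg_distrib, this]
    ring
  hab := by have := D.hab; linarith
  hα := D.hα
  hβ := by simpa using D.hβ
  exA := D.exA
  exB := by
    obtain ⟨i, j, h, h'⟩ := D.exB
    exact ⟨i, j, h, by simpa using h'⟩

/-- The first family of weights. -/
def τ (c : Fin d) : ℝ := (D.a + D.b) + (D.α - D.β) * D.θ c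

/-- The second family of weights. -/
def δ (c : Fin d) : ℝ := (D.a - D.b) - (D.α + D.β) * D.θ c

lemma negB_τ (c : Fin d) : D.negB.τ c = D.δ c := by
  simp only [τ, δ, negB]; ring

lemma negB_δ (c : Fin d) : D.negB.δ c = D.τ c := by
  simp only [τ, δ, negB]; ring

lemma swap_τ (c : Fin d) : D.swap.τ c = D.τ c := by
  simp only [τ, swap]; ring

lemma line (c : Fin d) : (D.α + D.β) * D.τ c + (D.α - D.β) * D.δ c = -2 := by
  have := D.hab
  simp only [τ, δ]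
  linear_combination 2 * this

lemma gram_comb (x y : ℝ) (i j : Fin n) :
    ∑ c, (x + y * D.θ c) * (D.Z c i * D.Z c j) =
      x * ((if i = j then 1 else 0) + D.α * D.A i j + D.β * D.B i j) +
        y * (D.a * D.B i j - D.b * D.A i j) := by
  rw [← D.hG, ← D.hT, Finset.mul_sum, Finset.mul_sum, ← Finset.sum_add_distrib]
  exact Finset.sum_congr rfl fun c _ => by ring

lemma gram_τ (i j : Fin n) :
    ∑ c, D.τ c * (D.Z c i * D.Z c j) =
      (if i = j then (D.a + D.b) else 0) - (D.A i j + D.B i j) := by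
  have h := D.hab
  simp only [τ]
  rw [D.gram_comb]
  split_ifs <;> linear_combination (D.A i j + D.B i j) * h

lemma gram_δ (i j : Fin n) :
    ∑ c, D.δ c * (D.Z c i * D.Z c j) =
      (if i = j then (D.a - D.b) else 0) - (D.A i j - D.B i j) := by
  have h := D.negB.gram_τ i j
  simp only [negB_τ] at h
  simp only [negB] at h
  rw [h]
  simp [sub_eq_add_neg]

lemma gram_τ_diag (i : Fin n) : ∑ c, D.τ c * (D.Z c i * D.Z c i) = D.a + D.b := by
  rw [D.gram_τ]; simp [D.hA0, D.hB0]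

lemma gram_δ_diag (i : Fin n) : ∑ c, D.δ c * (D.Z c i * D.Z c i) = D.a - D.b := by
  rw [D.gram_δ]; simp [D.hA0, D.hB0]

lemma gram_τ_off (i j : Fin n) (h : i ≠ j) :
    ∑ c, D.τ c * (D.Z c i * D.Z c j) = - (D.A i j + D.B i j) := by
  rw [D.gram_τ]; simp [h]

lemma gram_δ_off (i j : Fin n) (h : i ≠ j) :
    ∑ c, D.δ c * (D.Z c i * D.Z c j) = - (D.A i j - D.B i j) := by
  rw [D.gram_δ]; simp [h]

lemma AB_cases (i j : Fin n) (h : i ≠ j) :
    (D.A i j = 1 ∧ D.B i j = 0) ∨ (D.A i j = -1 ∧ D.B i j = 0) ∨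
      (D.A i j = 0 ∧ D.B i j = 1) ∨ (D.A i j = 0 ∧ D.B i j = -1) := by
  rcases D.hAB i j h with ⟨h1 | h1, h2⟩ | ⟨h2, h1 | h1⟩
  · exact Or.inl ⟨h1, h2⟩
  · exact Or.inr (Or.inl ⟨h1, h2⟩)
  · exact Or.inr (Or.inr (Or.inl ⟨h2, h1⟩))
  · exact Or.inr (Or.inr (Or.inr ⟨h2, h1⟩))

lemma sq_τ (i j : Fin n) :
    (∑ c, D.τ c * (D.Z c i * D.Z c j)) ^ 2 = if i = j then (D.a + D.b) ^ 2 else 1 := by
  split_ifs with h
  · subst h; rw [D.gram_τ_diag]
  · rw [D.gram_τ_off i j h]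
    rcases D.AB_cases i j h with ⟨h1, h2⟩ | ⟨h1, h2⟩ | ⟨h1, h2⟩ | ⟨h1, h2⟩ <;> rw [h1, h2] <;>
      norm_num

lemma sq_δ (i j : Fin n) :
    (∑ c, D.δ c * (D.Z c i * D.Z c j)) ^ 2 = if i = j then (D.a - D.b) ^ 2 else 1 := by
  split_ifs with h
  · subst h; rw [D.gram_δ_diag]
  · rw [D.gram_δ_off i j h]
    rcases D.AB_cases i j h with ⟨h1, h2⟩ | ⟨h1, h2⟩ | ⟨h1, h2⟩ | ⟨h1, h2⟩ <;> rw [h1, h2] <;>
      norm_num

lemma idS (v v' : Fin n → ℝ) :
    ∑ c, ∑ c', D.τ c * D.τ c' * XX D.Z v c c' * XX D.Z v' c c' =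
      (∑ i, v i) * (∑ i, v' i) + ((D.a + D.b) ^ 2 - 1) * ∑ i, v i * v' i :=
  sq_identity _ _ _ D.sq_τ v v'

lemma idD (v v' : Fin n → ℝ) :
    ∑ c, ∑ c', D.δ c * D.δ c' * XX D.Z v c c' * XX D.Z v' c c' =
      (∑ i, v i) * (∑ i, v' i) + ((D.a - D.b) ^ 2 - 1) * ∑ i, v i * v' i :=
  sq_identity _ _ _ D.sq_δ v v'

lemma norm_one (i : Fin n) : ∑ c, D.Z c i * D.Z c i = 1 := by
  rw [D.hG]; simp [D.hA0, D.hB0]

lemma trace_XX (v : Fin n → ℝ) : ∑ c, XX D.Z v c c = ∑ i, v i := by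
  unfold XX
  rw [Finset.sum_comm]
  refine Finset.sum_congr rfl fun i _ => ?_
  rw [← Finset.mul_sum, D.norm_one, mul_one]

lemma sum_sq_pos {v : Fin n → ℝ} (hv : v ≠ 0) : 0 < ∑ i, v i * v i := by
  obtain ⟨i, hi⟩ := Function.ne_iff.1 hv
  exact Finset.sum_pos' (fun i _ => mul_self_nonneg _) ⟨i, Finset.mem_univ _, by
    have : v i ≠ 0 := hi
    exact mul_self_pos.2 this⟩

end BData

/-- `TwoDist n m`: there are `n` distinct unit vectors in `ℝ^m` with at most two inner products. -/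
def TwoDist (n m : ℕ) : Prop :=
  ∃ y : Fin n → EuclideanSpace ℝ (Fin m), Function.Injective y ∧ (∀ i, ‖y i‖ = 1) ∧
    ∃ p q : ℝ, ∀ i j, i ≠ j → inner ℝ (y i) (y j) = p ∨ inner ℝ (y i) (y j) = q

end Pool.Agent.W5h16.Biang
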