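import Pool.Agent.W5h16.Biang.Proj

/-!
Geometric lemmas: simultaneous diagonalisation, Gram matrices and isometries, the lower bound for
spherical two-distance sets, and their boundedness.
-/

namespace Pool.Agent.W5h16.Biang

open Finset Matrix

/-- Every matrix has a generalised inverse. -/
lemma exists_ginv {n d : ℕ} (X : Matrix (Fin d) (Fin n) ℝ) :
    ∃ Q : Matrix (Fin n) (Fin d) ℝ, X * Q * X = X := by
  let f : (Fin n → ℝ) →ₗ[ℝ] (Fin d → ℝ) := Matrix.toLin' X
  obtain ⟨s, hs⟩ := LinearMap.exists_rightInverse_of_surjective f.rangeRestrict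
    (LinearMap.range_rangeRestrict f)
  obtain ⟨g, hg⟩ := LinearMap.exists_extend s
  refine ⟨LinearMap.toMatrix' g, ?_⟩
  have hfg : ∀ v, f (g (f v)) = f v := by
    intro v
    have h1 : g (f v) = s ⟨f v, LinearMap.mem_range_self f v⟩ := by
      rw [← hg]; rfl
    have h2 := LinearMap.congr_fun hs ⟨f v, LinearMap.mem_range_self f v⟩
    rw [h1]
    have h3 := congrArg Subtype.val h2
    simpa using h3
  have h4 : f ∘ₗ g ∘ₗ f = f := LinearMap.ext hfg
  have h5 := congrArg LinearMap.toMatrix' h4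
  rw [LinearMap.toMatrix'_comp, LinearMap.toMatrix'_comp, LinearMap.toMatrix'_toLin'] at h5
  rw [Matrix.mul_assoc]
  exact h5

/-- Simultaneous diagonalisation of a Gram matrix and a matrix vanishing on its kernel. -/
lemma simdiag {n d : ℕ} (X : Matrix (Fin d) (Fin n) ℝ) (T : Matrix (Fin n) (Fin n) ℝ)
    (hT : Tᵀ = T) (hker : ∀ v : Fin n → ℝ, X *ᵥ v = 0 → T *ᵥ v = 0) :
    ∃ (Z : Fin d → Fin n → ℝ) (θ : Fin d → ℝ),
      (∀ i j, ∑ c, Z c i * Z c j = ∑ c, X c i * X c j) ∧
      (∀ i j, ∑ c, θ c * (Z c i * Z c j) = T i j) := by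
  obtain ⟨Q, hQ⟩ := exists_ginv X
  have h1 : T * (Q * X) = T := by
    apply Matrix.toLin'.injective
    apply LinearMap.ext
    intro v
    rw [Matrix.toLin'_apply, Matrix.toLin'_apply, ← Matrix.mulVec_mulVec, ← sub_eq_zero,
      ← Matrix.mulVec_sub]
    apply hker
    rw [Matrix.mulVec_sub, Matrix.mulVec_mulVec, ← Matrix.mul_assoc, hQ, sub_self]
  have h2 : (Q * X)ᵀ * T = T := by
    have := congrArg Matrix.transpose h1
    rw [Matrix.transpose_mul, hT] at this
    exact this
  set N : Matrix (Fin d) (Fin d) ℝ := Qᵀ * T * Q with hN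
  have hNs : N.IsHermitian := by
    rw [Matrix.IsHermitian, Matrix.conjTranspose_eq_transpose_of_trivial, hN,
      Matrix.transpose_mul, Matrix.transpose_mul, Matrix.transpose_transpose, hT,
      Matrix.mul_assoc]
  have hXN : Xᵀ * N * X = T := by
    rw [hN]
    calc Xᵀ * (Qᵀ * T * Q) * X = ((Q * X)ᵀ * T) * (Q * X) := by
          rw [Matrix.transpose_mul]
          simp only [Matrix.mul_assoc]
      _ = T := by rw [h2, h1]
  set U : Matrix (Fin d) (Fin d) ℝ := (hNs.eigenvectorUnitary : Matrix (Fin d) (Fin d) ℝ) with hU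
  have hUU : U * Uᵀ = 1 := by
    have := Matrix.mem_unitaryGroup_iff.1 hNs.eigenvectorUnitary.2
    rw [Matrix.star_eq_conjTranspose, Matrix.conjTranspose_eq_transpose_of_trivial] at this
    exact this
  have hspec : N = U * Matrix.diagonal hNs.eigenvalues * Uᵀ := by
    conv_lhs => rw [hNs.spectral_theorem]
    rw [Unitary.conjStarAlgAut_apply, Matrix.star_eq_conjTranspose,
      Matrix.conjTranspose_eq_transpose_of_trivial]
    rfl
  refine ⟨fun c i => (Uᵀ * X) c i, hNs.eigenvalues, ?_, ?_⟩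
  · intro i j
    have h3 : (Uᵀ * X)ᵀ * (Uᵀ * X) = Xᵀ * X := by
      rw [Matrix.transpose_mul, Matrix.transpose_transpose]
      calc Xᵀ * U * (Uᵀ * X) = Xᵀ * (U * Uᵀ) * X := by simp only [Matrix.mul_assoc]
        _ = Xᵀ * X := by rw [hUU, Matrix.mul_one]
    have h4 := congrFun (congrFun h3 i) j
    rw [Matrix.mul_apply, Matrix.mul_apply] at h4
    simpa only [Matrix.transpose_apply] using h4
  · intro i j
    have h3 : (Uᵀ * X)ᵀ * Matrix.diagonal hNs.eigenvalues * (Uᵀ * X) = T := by
      rw [Matrix.transpose_mul, Matrix.transpose_transpose]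
      calc Xᵀ * U * Matrix.diagonal hNs.eigenvalues * (Uᵀ * X) =
          Xᵀ * (U * Matrix.diagonal hNs.eigenvalues * Uᵀ) * X := by
            simp only [Matrix.mul_assoc]
        _ = T := by rw [← hspec, hXN]
    have h4 := congrFun (congrFun h3 i) j
    rw [Matrix.mul_assoc, Matrix.mul_apply] at h4
    rw [← h4]
    refine Finset.sum_congr rfl fun c _ => ?_
    rw [Matrix.diagonal_mul, Matrix.transpose_apply]
    ring

/-- Equal Gram matrices give orthogonally equivalent systems. -/
lemma gram_iso {n d : ℕ} (x x' : Fin n → EuclideanSpace ℝ (Fin d))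
    (h : ∀ i j, inner ℝ (x i) (x j) = inner ℝ (x' i) (x' j)) :
    ∃ U : EuclideanSpace ℝ (Fin d) ≃ₗᵢ[ℝ] EuclideanSpace ℝ (Fin d), ∀ i, U (x i) = x' i := by
  classical
  let f : (Fin n → ℝ) →ₗ[ℝ] EuclideanSpace ℝ (Fin d) := Fintype.linearCombination ℝ x
  let f' : (Fin n → ℝ) →ₗ[ℝ] EuclideanSpace ℝ (Fin d) := Fintype.linearCombination ℝ x'
  have hf : ∀ v, f v = ∑ i, v i • x i := fun v => rfl
  have hf' : ∀ v, f' v = ∑ i, v i • x' i := fun v => rfl
  have hin : ∀ v w, inner ℝ (f v) (f w) = inner ℝ (f' v) (f' w) := by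
    intro v w
    rw [hf, hf, hf', hf', sum_inner, sum_inner]
    refine Finset.sum_congr rfl fun i _ => ?_
    rw [inner_sum, inner_sum]
    refine Finset.sum_congr rfl fun j _ => ?_
    rw [inner_smul_left, inner_smul_right, inner_smul_left, inner_smul_right, h]
  have hnorm : ∀ v, ‖f v‖ = ‖f' v‖ := by
    intro v
    have := hin v v
    rw [real_inner_self_eq_norm_sq, real_inner_self_eq_norm_sq] at this
    exact (sq_eq_sq₀ (norm_nonneg _) (norm_nonneg _)).1 this
  obtain ⟨s, hs⟩ := LinearMap.exists_rightInverse_of_surjective f.rangeRestrict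
    (LinearMap.range_rangeRestrict f)
  have hfs : ∀ u : LinearMap.range f, f (s u) = u := by
    intro u
    have h2 := LinearMap.congr_fun hs u
    have h3 := congrArg Subtype.val h2
    simpa using h3
  let L : LinearMap.range f →ₗᵢ[ℝ] EuclideanSpace ℝ (Fin d) :=
    { toLinearMap := f' ∘ₗ s
      norm_map' := by
        intro u
        change ‖f' (s u)‖ = ‖u‖
        rw [← hnorm, hfs]
        rfl }
  have hL : ∀ u, L u = f' (s u) := fun u => rfl
  have hxi : ∀ i, f (Pi.single i 1) = x i := by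
    intro i
    rw [hf]
    simp [Pi.single_apply]
  have hxi' : ∀ i, f' (Pi.single i 1) = x' i := by
    intro i
    rw [hf']
    simp [Pi.single_apply]
  refine ⟨L.extend.toLinearIsometryEquiv rfl, fun i => ?_⟩
  have hmem : x i ∈ LinearMap.range f := ⟨_, hxi i⟩
  rw [LinearIsometry.toLinearIsometryEquiv_apply]
  have h1 := LinearIsometry.extend_apply L ⟨x i, hmem⟩
  simp only at h1
  rw [h1, hL, ← hxi' i, ← sub_eq_zero, ← map_sub, ← norm_eq_zero, ← hnorm, norm_eq_zero, map_sub,
    hxi, hfs, sub_self]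

/-- Monotonicity. -/
lemma TwoDist.mono {n N m : ℕ} (h : TwoDist N m) (hn : n ≤ N) : TwoDist n m := by
  obtain ⟨y, hy, h1, p, q, h2⟩ := h
  refine ⟨fun i => y (Fin.castLE hn i), fun i j hij => ?_, fun i => h1 _, p, q, fun i j hij => ?_⟩
  · exact Fin.castLE_injective hn (hy hij)
  · exact h2 _ _ fun h => hij (Fin.castLE_injective hn h)

/-- The standard example: `d.choose 2` vectors in dimension `d - 1`. -/
lemma twoDist_choose {d : ℕ} (hd : 3 ≤ d) : TwoDist (d.choose 2) (d - 1) := by
  classical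
  have hcard : Fintype.card {s : Finset (Fin d) // s ∈ (univ : Finset (Fin d)).powersetCard 2} =
      d.choose 2 := by
    rw [Fintype.card_coe, Finset.card_powersetCard, Finset.card_univ, Fintype.card_fin]
  let e := (Fintype.equivFinOfCardEq hcard).symm
  have hs : ∀ i, (e i).1.card = 2 := fun i => (Finset.mem_powersetCard.1 (e i).2).2
  have h2 : 2 ≤ d.choose 2 := by
    calc 2 ≤ Nat.choose 3 2 := by decide
      _ ≤ d.choose 2 := Nat.choose_le_choose 2 hd
  have hsq : (Real.sqrt 2)⁻¹ * (Real.sqrt 2)⁻¹ = 1 / 2 := by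
    rw [← mul_inv, Real.mul_self_sqrt (by norm_num)]; norm_num
  have hin : ∀ i j, ∑ c, (if c ∈ (e i).1 then (Real.sqrt 2)⁻¹ else 0) *
      (if c ∈ (e j).1 then (Real.sqrt 2)⁻¹ else 0) = (((e i).1 ∩ (e j).1).card : ℝ) / 2 := by
    intro i j
    have : ∀ c, (if c ∈ (e i).1 then (Real.sqrt 2)⁻¹ else 0) *
        (if c ∈ (e j).1 then (Real.sqrt 2)⁻¹ else 0) =
        if c ∈ (e i).1 ∩ (e j).1 then (1 / 2 : ℝ) else 0 := by
      intro c
      by_cases h1 : c ∈ (e i).1
      · by_cases h2 : c ∈ (e j).1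
        · rw [if_pos h1, if_pos h2, if_pos (Finset.mem_inter.2 ⟨h1, h2⟩), hsq]
        · rw [if_neg h2, mul_zero, if_neg (fun h => h2 (Finset.mem_inter.1 h).2)]
      · rw [if_neg h1, zero_mul, if_neg (fun h => h1 (Finset.mem_inter.1 h).1)]
    simp_rw [this]
    rw [Finset.sum_ite_mem, Finset.univ_inter, Finset.sum_const, nsmul_eq_mul]
    ring
  refine proj_lemma h2 (fun i c => if c ∈ (e i).1 then (Real.sqrt 2)⁻¹ else 0)
    (fun _ => (Real.sqrt 2)⁻¹) (1 / 2) 0 (by norm_num) (by norm_num) ?_ ?_ ?_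
  · intro i
    rw [hin, Finset.inter_self, hs]; norm_num
  · intro i j hij
    rw [hin]
    have h3 : ((e i).1 ∩ (e j).1).card < 2 := by
      by_contra h
      push Not at h
      have h4 : (e i).1 ∩ (e j).1 = (e i).1 :=
        Finset.eq_of_subset_of_card_le Finset.inter_subset_left (by rw [hs]; exact h)
      have h5 : (e i).1 ∩ (e j).1 = (e j).1 :=
        Finset.eq_of_subset_of_card_le Finset.inter_subset_right (by rw [hs]; exact h)
      apply hij
      apply e.injective
      apply Subtype.ext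
      rw [← h4, h5]
    have h4 : ((e i).1 ∩ (e j).1).card = 0 ∨ ((e i).1 ∩ (e j).1).card = 1 := by omega
    rcases h4 with h | h <;> rw [h]
    · right; norm_num
    · left; norm_num
  · intro i
    have : ∀ c, (Real.sqrt 2)⁻¹ * (if c ∈ (e i).1 then (Real.sqrt 2)⁻¹ else 0) =
        if c ∈ (e i).1 then (1 / 2 : ℝ) else 0 := by
      intro c
      split_ifs
      · exact hsq
      · ring
    simp_rw [this]
    rw [Finset.sum_ite_mem, Finset.univ_inter, Finset.sum_const, hs, nsmul_eq_mul]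
    norm_num

end Pool.Agent.W5h16.Biang
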