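import Pool.Agent.W5h16.Biang.Count

/-!
The nondegenerate case: all but at most two of the eigenvalues coincide.
-/

namespace Pool.Agent.W5h16.Biang

open Finset

namespace BData

variable {n d : ℕ} (D : BData n d)

/-- The weights of the isotropic form. -/
def om (c c' : Fin d) : ℝ :=
  ((D.a - D.b) ^ 2 - 1) * (D.τ c * D.τ c') - ((D.a + D.b) ^ 2 - 1) * (D.δ c * D.δ c')

lemma om_symm (c c' : Fin d) : D.om c c' = D.om c' c := by
  unfold om; ring

lemma om_id (v : Fin n → ℝ) :
    ∑ c, ∑ c', D.om c c' * XX D.Z v c c' * XX D.Z v c c' =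
      (((D.a - D.b) ^ 2 - 1) - ((D.a + D.b) ^ 2 - 1)) * (∑ i, v i) * (∑ i, v i) := by
  have h1 := D.idS v v
  have h2 := D.idD v v
  have h3 : ∑ c, ∑ c', D.om c c' * XX D.Z v c c' * XX D.Z v c c' =
      ((D.a - D.b) ^ 2 - 1) * (∑ c, ∑ c', D.τ c * D.τ c' * XX D.Z v c c' * XX D.Z v c c') -
      ((D.a + D.b) ^ 2 - 1) * (∑ c, ∑ c', D.δ c * D.δ c' * XX D.Z v c c' * XX D.Z v c c') := by
    simp only [Finset.mul_sum, ← Finset.sum_sub_distrib]
    refine Finset.sum_congr rfl fun c _ => Finset.sum_congr rfl fun c' _ => ?_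
    unfold om; ring
  rw [h3, h1, h2]
  ring

lemma inj_of_lt (h1 : 1 < (D.a + D.b) ^ 2) (v : Fin n → ℝ)
    (hv : ∀ c c', XX D.Z v c c' = 0) : v = 0 := by
  by_contra hv0
  have hid := D.idS v v
  simp only [hv, mul_zero, Finset.sum_const_zero] at hid
  have := sum_sq_pos hv0
  nlinarith [mul_self_nonneg (∑ i, v i)]

/-- Two eigenvalues which are both orthogonal to the same one coincide. -/
lemma om_zero_unique (h1 : 1 < (D.a + D.b) ^ 2) (h2 : 1 < (D.a - D.b) ^ 2) (c c1 c2 : Fin d)
    (g1 : D.om c c1 = 0) (g2 : D.om c c2 = 0) : D.θ c1 = D.θ c2 := by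
  by_contra hne
  set lam := (D.a + D.b) ^ 2 - 1 with hlam
  set mu := (D.a - D.b) ^ 2 - 1 with hmu
  have hlam0 : 0 < lam := by rw [hlam]; linarith
  have hmu0 : 0 < mu := by rw [hmu]; linarith
  have e : ∀ c', D.om c c' = (mu * D.τ c * (D.a + D.b) - lam * D.δ c * (D.a - D.b)) +
      (mu * D.τ c * (D.α - D.β) + lam * D.δ c * (D.α + D.β)) * D.θ c' := by
    intro c'
    have e1 : D.τ c' = (D.a + D.b) + (D.α - D.β) * D.θ c' := rfl
    have e2 : D.δ c' = (D.a - D.b) - (D.α + D.β) * D.θ c' := rfl
    unfold om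
    rw [e1, e2, ← hlam, ← hmu]
    ring
  set P := mu * D.τ c * (D.a + D.b) - lam * D.δ c * (D.a - D.b) with hP
  set R := mu * D.τ c * (D.α - D.β) + lam * D.δ c * (D.α + D.β) with hR
  have hR0 : R = 0 := by
    have h3 : R * (D.θ c1 - D.θ c2) = 0 := by
      have := e c1
      have := e c2
      linarith
    rcases mul_eq_zero.1 h3 with h | h
    · exact h
    · exact absurd (sub_eq_zero.1 h) hne
  have hP0 : P = 0 := by
    have := e c1
    rw [hR0, g1] at this
    linarith
  have hab := D.hab
  have ht : mu * D.τ c = 0 := by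
    have h3 : R * (D.a - D.b) + P * (D.α + D.β) = -2 * (mu * D.τ c) := by
      rw [hR, hP]; linear_combination (2 * mu * D.τ c) * hab
    rw [hR0, hP0] at h3
    linarith
  have hd : lam * D.δ c = 0 := by
    have h3 : R * (D.a + D.b) - P * (D.α - D.β) = -2 * (lam * D.δ c) := by
      rw [hR, hP]; linear_combination (2 * lam * D.δ c) * hab
    rw [hR0, hP0] at h3
    linarith
  have ht0 : D.τ c = 0 := by
    rcases mul_eq_zero.1 ht with h | h
    · exact absurd h hmu0.ne'
    · exact h
  have hd0 : D.δ c = 0 := by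
    rcases mul_eq_zero.1 hd with h | h
    · exact absurd h hlam0.ne'
    · exact h
  have := D.line c
  rw [ht0, hd0] at this
  norm_num at this

/-- `om c c'` is an affine function of `θ c'`. -/
lemma om_affine (c : Fin d) : ∃ P R : ℝ, ∀ c', D.om c c' = P + R * D.θ c' := by
  refine ⟨((D.a - D.b) ^ 2 - 1) * D.τ c * (D.a + D.b) - ((D.a + D.b) ^ 2 - 1) * D.δ c *
    (D.a - D.b), ((D.a - D.b) ^ 2 - 1) * D.τ c * (D.α - D.β) +
      ((D.a + D.b) ^ 2 - 1) * D.δ c * (D.α + D.β), fun c' => ?_⟩
  have e1 : D.τ c' = (D.a + D.b) + (D.α - D.β) * D.θ c' := rfl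
  have e2 : D.δ c' = (D.a - D.b) - (D.α + D.β) * D.θ c' := rfl
  unfold om
  rw [e1, e2]
  ring

/-- All but at most two of the eigenvalues coincide; the exceptions lie on different sides. -/
theorem structure_thm (hd : 7 ≤ d) (hn : d * (d - 1) < 2 * n) (h1 : 1 < (D.a + D.b) ^ 2)
    (h2 : 1 < (D.a - D.b) ^ 2) :
    ∃ θs : ℝ, (univ.filter fun c => θs < D.θ c).card ≤ 1 ∧
      (univ.filter fun c => D.θ c < θs).card ≤ 1 := by
  classical
  -- the bounds on the numbers of positive and negative pairs
  set Pos := pairs fun c c' => 0 < D.om c c' with hPos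
  set Neg := pairs fun c c' => D.om c c' < 0 with hNeg
  have memPos : ∀ c c', s(c, c') ∈ Pos ↔ 0 < D.om c c' := fun c c' =>
    mem_pairs (R := fun c c' => 0 < D.om c c') fun c c' h => by rw [D.om_symm]; exact h
  have memNeg : ∀ c c', s(c, c') ∈ Neg ↔ D.om c c' < 0 := fun c c' =>
    mem_pairs (R := fun c c' => D.om c c' < 0) fun c c' h => by rw [D.om_symm]; exact h
  have hid : ∀ v : Fin n → ℝ, ∑ c, ∑ c', D.om c c' * (∑ i, v i * (D.Z c i * D.Z c' i)) *
      (∑ i, v i * (D.Z c i * D.Z c' i)) =
      (((D.a - D.b) ^ 2 - 1) - ((D.a + D.b) ^ 2 - 1)) * (∑ i, v i * 1) * (∑ i, v i * 1) := by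
    intro v
    simp only [mul_one]
    exact D.om_id v
  have cneg := count_neg (fun (i : Fin n) c c' => D.Z c i * D.Z c' i) (fun i c c' => mul_comm _ _)
    D.om D.om_symm _ (fun _ => 1) hid (fun v hv => D.inj_of_lt h1 v hv)
  have cpos := count_pos (fun (i : Fin n) c c' => D.Z c i * D.Z c' i) (fun i c c' => mul_comm _ _)
    D.om D.om_symm _ (fun _ => 1) hid (fun v hv => D.inj_of_lt h1 v hv)
  rw [Fintype.card_fin, ← hNeg] at cneg
  rw [Fintype.card_fin, ← hPos] at cpos
  obtain ⟨C, hC⟩ : ∃ C, (d + 1).choose 2 = d + C ∧ 2 * C = d * (d - 1) := by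
    refine ⟨d.choose 2, ?_, ?_⟩
    · rw [Nat.choose_succ_succ]; simp
    · rw [Nat.choose_two_right, Nat.mul_div_cancel' (Nat.even_mul_pred_self d).two_dvd]
  obtain ⟨hC1, hC2⟩ := hC
  rw [hC1] at cneg cpos
  have hNle : Neg.card ≤ d := by omega
  have hPle : Pos.card ≤ d := by omega
  have hsum : Pos.card + Neg.card + 1 ≤ 2 * d := by
    rcases le_total 0 (((D.a - D.b) ^ 2 - 1) - ((D.a + D.b) ^ 2 - 1)) with h | h
    · have := cneg.2 h
      omega
    · have := cpos.2 h
      omega
  -- some row has at most three nonzero entries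
  obtain ⟨c0, hc0⟩ : ∃ c0, (univ.filter fun c' => D.om c0 c' ≠ 0).card ≤ 3 := by
    by_contra hcon
    push Not at hcon
    have e1 : (ordPairs fun c c' => D.om c c' ≠ 0).card =
        ∑ c, (univ.filter fun c' => D.om c c' ≠ 0).card := by
      rw [card_ordPairs]
    have e2 : 4 * d ≤ (ordPairs fun c c' => D.om c c' ≠ 0).card := by
      rw [e1]
      calc 4 * d = ∑ c : Fin d, 4 := by simp [mul_comm]
        _ ≤ _ := Finset.sum_le_sum fun c _ => hcon c
    have e3 := card_ordPairs_le fun c c' => D.om c c' ≠ 0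
    have e4 : (pairs fun c c' => D.om c c' ≠ 0) ⊆ Pos ∪ Neg := by
      intro p hp
      induction p using Sym2.ind with
      | _ a b =>
        rw [mem_pairs (R := fun c c' => D.om c c' ≠ 0)
          (fun c c' h => by rw [D.om_symm]; exact h)] at hp
        rw [mem_union, memPos, memNeg]
        rcases lt_or_gt_of_ne hp with h | h
        · exact Or.inr h
        · exact Or.inl h
    have e5 := (Finset.card_le_card e4).trans (Finset.card_union_le Pos Neg)
    omega
  set M := univ.filter fun c' => D.om c0 c' = 0 with hM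
  have hMcard : d ≤ M.card + 3 := by
    have e1 : M.card + (univ.filter fun c' => D.om c0 c' ≠ 0).card = d := by
      have := Finset.card_filter_add_card_filter_not (s := (univ : Finset (Fin d)))
        (fun c' => D.om c0 c' = 0)
      simpa using this
    omega
  have hMne : M.Nonempty := by
    rw [← Finset.card_pos]; omega
  obtain ⟨m0, hm0⟩ := hMne
  have hMθ : ∀ c ∈ M, D.θ c = D.θ m0 := by
    intro c hc
    simp only [hM, mem_filter, mem_univ, true_and] at hc hm0
    exact D.om_zero_unique h1 h2 c0 c m0 hc hm0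
  have omθ : ∀ c c1 c2, D.θ c1 = D.θ c2 → D.om c c1 = D.om c c2 := by
    intro c c1 c2 h
    obtain ⟨P, R, hPR⟩ := D.om_affine c
    rw [hPR, hPR, h]
  have omM : ∀ c ∈ M, ∀ c' ∈ M, D.om c c' = D.om m0 m0 := by
    intro c hc c' hc'
    rw [omθ c c' m0 (hMθ c' hc'), D.om_symm, omθ m0 c m0 (hMθ c hc)]
  have hself : D.om m0 m0 = 0 := by
    by_contra hne
    have e1 : M.sym2.card ≤ d := by
      rcases lt_or_gt_of_ne hne with h | h
      · refine (Finset.card_le_card ?_).trans hNle
        intro p hp
        induction p using Sym2.ind with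
        | _ a b =>
          rw [Finset.mk_mem_sym2_iff] at hp
          rw [memNeg, omM a hp.1 b hp.2]; exact h
      · refine (Finset.card_le_card ?_).trans hPle
        intro p hp
        induction p using Sym2.ind with
        | _ a b =>
          rw [Finset.mk_mem_sym2_iff] at hp
          rw [memPos, omM a hp.1 b hp.2]; exact h
    rw [Finset.card_sym2, Nat.choose_two_right, Nat.add_sub_cancel] at e1
    have e2 : (M.card + 1) * M.card < 2 * (d + 1) := by
      have := Nat.div_lt_iff_lt_mul (k := 2) (x := (M.card + 1) * M.card) (y := d + 1) (by norm_num)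
      have := this.1 (by omega)
      omega
    obtain ⟨m, hm⟩ : ∃ m, M.card = m + 4 := ⟨M.card - 4, by omega⟩
    rw [hm] at e2 hMcard
    nlinarith
  refine ⟨D.θ m0, ?_, ?_⟩
  · by_contra hcon
    push Not at hcon
    obtain ⟨u1, hu1, u2, hu2, hu12⟩ := Finset.one_lt_card.1 hcon
    simp only [mem_filter, mem_univ, true_and] at hu1 hu2
    obtain ⟨P, R, hPR⟩ := D.om_affine m0
    have hP : P = - R * D.θ m0 := by
      have := hPR m0
      rw [hself] at this
      linarith
    have hR : R ≠ 0 := by
      intro h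
      have e1 : D.om m0 u1 = 0 := by rw [hPR, hP, h]; ring
      have := D.om_zero_unique h1 h2 m0 u1 m0 e1 hself
      linarith
    have hom : ∀ u, ∀ m ∈ M, D.om u m = R * (D.θ u - D.θ m0) := by
      intro u m hm
      rw [omθ u m m0 (hMθ m hm), D.om_symm, hPR, hP]; ring
    -- the pairs `s(u, m)`
    let S : Finset (Sym2 (Fin d)) := (({u1, u2} : Finset (Fin d)) ×ˢ M).image fun x => s(x.1, x.2)
    have hScard : S.card = 2 * M.card := by
      rw [Finset.card_image_of_injOn, Finset.card_product, Finset.card_pair hu12]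
      intro x hx y hy hxy
      simp only [coe_product, Set.mem_prod, mem_coe, mem_insert, mem_singleton] at hx hy
      simp only [Sym2.eq_iff] at hxy
      rcases hxy with ⟨h, h'⟩ | ⟨h, h'⟩
      · exact Prod.ext h h'
      · exfalso
        have e1 := hMθ _ hy.2
        rw [← h] at e1
        rcases hx.1 with h3 | h3 <;> rw [h3] at e1 <;> linarith
    have hSle : S.card ≤ d := by
      rcases lt_or_gt_of_ne hR with h | h
      · refine (Finset.card_le_card ?_).trans hNle
        intro p hp
        simp only [S, mem_image, mem_product, mem_insert, mem_singleton] at hp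
        obtain ⟨x, ⟨hx1, hx2⟩, rfl⟩ := hp
        rw [memNeg, hom _ _ hx2]
        apply mul_neg_of_neg_of_pos h
        rcases hx1 with h3 | h3 <;> rw [h3] <;> linarith
      · refine (Finset.card_le_card ?_).trans hPle
        intro p hp
        simp only [S, mem_image, mem_product, mem_insert, mem_singleton] at hp
        obtain ⟨x, ⟨hx1, hx2⟩, rfl⟩ := hp
        rw [memPos, hom _ _ hx2]
        apply mul_pos h
        rcases hx1 with h3 | h3 <;> rw [h3] <;> linarith
    omega
  · by_contra hcon
    push Not at hcon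
    obtain ⟨u1, hu1, u2, hu2, hu12⟩ := Finset.one_lt_card.1 hcon
    simp only [mem_filter, mem_univ, true_and] at hu1 hu2
    obtain ⟨P, R, hPR⟩ := D.om_affine m0
    have hP : P = - R * D.θ m0 := by
      have := hPR m0
      rw [hself] at this
      linarith
    have hR : R ≠ 0 := by
      intro h
      have e1 : D.om m0 u1 = 0 := by rw [hPR, hP, h]; ring
      have := D.om_zero_unique h1 h2 m0 u1 m0 e1 hself
      linarith
    have hom : ∀ u, ∀ m ∈ M, D.om u m = R * (D.θ u - D.θ m0) := by
      intro u m hm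
      rw [omθ u m m0 (hMθ m hm), D.om_symm, hPR, hP]; ring
    let S : Finset (Sym2 (Fin d)) := (({u1, u2} : Finset (Fin d)) ×ˢ M).image fun x => s(x.1, x.2)
    have hScard : S.card = 2 * M.card := by
      rw [Finset.card_image_of_injOn, Finset.card_product, Finset.card_pair hu12]
      intro x hx y hy hxy
      simp only [coe_product, Set.mem_prod, mem_coe, mem_insert, mem_singleton] at hx hy
      simp only [Sym2.eq_iff] at hxy
      rcases hxy with ⟨h, h'⟩ | ⟨h, h'⟩
      · exact Prod.ext h h'
      · exfalso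
        have e1 := hMθ _ hy.2
        rw [← h] at e1
        rcases hx.1 with h3 | h3 <;> rw [h3] at e1 <;> linarith
    have hSle : S.card ≤ d := by
      rcases lt_or_gt_of_ne hR with h | h
      · refine (Finset.card_le_card ?_).trans hPle
        intro p hp
        simp only [S, mem_image, mem_product, mem_insert, mem_singleton] at hp
        obtain ⟨x, ⟨hx1, hx2⟩, rfl⟩ := hp
        rw [memPos, hom _ _ hx2]
        apply mul_pos_of_neg_of_neg h
        rcases hx1 with h3 | h3 <;> rw [h3] <;> linarith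
      · refine (Finset.card_le_card ?_).trans hNle
        intro p hp
        simp only [S, mem_image, mem_product, mem_insert, mem_singleton] at hp
        obtain ⟨x, ⟨hx1, hx2⟩, rfl⟩ := hp
        rw [memNeg, hom _ _ hx2]
        apply mul_neg_of_pos_of_neg h
        rcases hx1 with h3 | h3 <;> rw [h3] <;> linarith
    omega

end BData

end Pool.Agent.W5h16.Biang
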