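import Pool.Agent.W5h16.Biang.Data

/-!
The projection lemma: unit vectors on an affine hyperplane with two inner products give a spherical
two-distance set in one dimension less.
-/

namespace Pool.Agent.W5h16.Biang

open Finset

lemma proj_lemma {n d : ℕ} (hn : 2 ≤ n) (y : Fin n → Fin d → ℝ) (w : Fin d → ℝ) (p q : ℝ)
    (hp : p < 1) (hq : q < 1)
    (h1 : ∀ i, ∑ c, y i c * y i c = 1)
    (h2 : ∀ i j, i ≠ j → ∑ c, y i c * y j c = p ∨ ∑ c, y i c * y j c = q)
    (hw : ∀ i, ∑ c, w c * y i c = 1) : TwoDist n (d - 1) := by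
  set E := EuclideanSpace ℝ (Fin d) with hE
  let Y : Fin n → E := fun i => WithLp.toLp 2 (y i)
  let W : E := WithLp.toLp 2 w
  have hin : ∀ u v : Fin d → ℝ, inner ℝ (WithLp.toLp 2 u : E) (WithLp.toLp 2 v) =
      ∑ c, u c * v c := by
    intro u v
    simp only [PiLp.inner_apply, RCLike.inner_apply, conj_trivial]
    exact Finset.sum_congr rfl fun c _ => mul_comm _ _
  have hYY : ∀ i j, inner ℝ (Y i) (Y j) = ∑ c, y i c * y j c := fun i j => hin _ _
  have hWY : ∀ i, inner ℝ W (Y i) = 1 := fun i => by rw [← hw i]; exact hin _ _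
  let i0 : Fin n := ⟨0, by omega⟩
  let i1 : Fin n := ⟨1, by omega⟩
  have hi01 : i0 ≠ i1 := by simp [i0, i1]
  have hW0 : W ≠ 0 := by
    intro h
    have := hWY i0
    rw [h, inner_zero_left] at this
    exact zero_ne_one this
  have hWW : inner ℝ W W ≠ 0 := by
    intro h
    exact hW0 (inner_self_eq_zero.1 h)
  set s : ℝ := inner ℝ W W with hs
  let C : E := s⁻¹ • W
  let u : Fin n → E := fun i => Y i - C
  have huu : ∀ i j, inner ℝ (u i) (u j) = inner ℝ (Y i) (Y j) - s⁻¹ := by
    intro i j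
    simp only [u, C, inner_sub_left, inner_sub_right, inner_smul_left, inner_smul_right,
      hWY, real_inner_comm W (Y i), conj_trivial]
    have h3 : inner ℝ (Y i) W = 1 := by rw [real_inner_comm]; exact hWY i
    rw [← hs]
    field_simp
    ring_nf
    try rw [h3]
    try ring
  have huW : ∀ i, u i ∈ (ℝ ∙ W)ᗮ := by
    intro i
    rw [Submodule.mem_orthogonal_singleton_iff_inner_right]
    simp only [u, C, inner_sub_right, inner_smul_right, hWY]
    rw [← hs, inv_mul_cancel₀ hWW]
    ring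
  have hY1 : ∀ i, inner ℝ (Y i) (Y i) = 1 := fun i => by rw [hYY, h1]
  have hYne : ∀ i j, i ≠ j → inner ℝ (Y i) (Y j) < 1 := by
    intro i j hij
    rw [hYY]
    rcases h2 i j hij with h | h <;> rw [h] <;> assumption
  have hYinj : ∀ i j, Y i = Y j → i = j := by
    intro i j h
    by_contra hij
    have := hYne i j hij
    rw [h, hY1] at this
    exact lt_irrefl _ this
  set ρ : ℝ := 1 - s⁻¹ with hρ
  have hρ0 : 0 < ρ := by
    have h3 : ρ = inner ℝ (u i0) (u i0) := by rw [huu, hY1]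
    have h4 : ρ = inner ℝ (u i1) (u i1) := by rw [huu, hY1]
    rcases lt_or_eq_of_le (real_inner_self_nonneg (x := u i0)) with h | h
    · rw [h3]; exact h
    · exfalso
      have h5 : u i0 = 0 := by rw [← inner_self_eq_zero (𝕜 := ℝ)]; exact h.symm
      have h6 : u i1 = 0 := by
        rw [← inner_self_eq_zero (𝕜 := ℝ), ← h4, h3]; exact h.symm
      apply hi01
      apply hYinj
      have h7 : Y i0 = C := sub_eq_zero.1 h5
      have h8 : Y i1 = C := sub_eq_zero.1 h6
      rw [h7, h8]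
  have hfin : Module.finrank ℝ ((ℝ ∙ W)ᗮ : Submodule ℝ E) = d - 1 := by
    have h3 := Submodule.finrank_add_finrank_orthogonal (𝕜 := ℝ) (ℝ ∙ W)
    have h4 : Module.finrank ℝ E = d := finrank_euclideanSpace_fin
    rw [finrank_span_singleton hW0, h4] at h3
    omega
  let φ := ((stdOrthonormalBasis ℝ ((ℝ ∙ W)ᗮ : Submodule ℝ E)).reindex (finCongr hfin)).repr
  let z : Fin n → EuclideanSpace ℝ (Fin (d - 1)) := fun i => (Real.sqrt ρ)⁻¹ • φ ⟨u i, huW i⟩
  have hzz : ∀ i j, inner ℝ (z i) (z j) = (inner ℝ (Y i) (Y j) - s⁻¹) / ρ := by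
    intro i j
    simp only [z, inner_smul_left, inner_smul_right, conj_trivial]
    rw [LinearIsometryEquiv.inner_map_map, Submodule.coe_inner]
    simp only
    rw [huu, ← mul_assoc, ← mul_inv, Real.mul_self_sqrt hρ0.le]
    field_simp
  have hz1 : ∀ i, inner ℝ (z i) (z i) = 1 := by
    intro i
    rw [hzz, hY1, ← hρ, div_self hρ0.ne']
  refine ⟨z, ?_, ?_, (p - s⁻¹) / ρ, (q - s⁻¹) / ρ, ?_⟩
  · intro i j hij
    by_contra hne
    have h3 : inner ℝ (z i) (z j) = 1 := by rw [hij, hz1]
    rw [hzz, div_eq_one_iff_eq hρ0.ne'] at h3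
    have := hYne i j hne
    linarith
  · intro i
    have := hz1 i
    rw [real_inner_self_eq_norm_sq] at this
    nlinarith [norm_nonneg (z i)]
  · intro i j hij
    rw [hzz, hYY]
    rcases h2 i j hij with h | h <;> rw [h]
    · exact Or.inl rfl
    · exact Or.inr rfl

end Pool.Agent.W5h16.Biang
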