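import Pool.Agent.W5h16.Biang.NonDeg

/-!
The nondegenerate case, continued: a matrix of rank at most two in the pencil; the case where its
diagonal does not vanish.
-/

namespace Pool.Agent.W5h16.Biang

open Finset

namespace BData

variable {n d : ℕ} (D : BData n d)

/-- Two exceptional coordinates. -/
lemma exists_coords (hd : 2 ≤ d) (θs : ℝ) (hU : (univ.filter fun c => θs < D.θ c).card ≤ 1)
    (hV : (univ.filter fun c => D.θ c < θs).card ≤ 1) :
    ∃ c1 c2, c1 ≠ c2 ∧ θs ≤ D.θ c1 ∧ D.θ c2 ≤ θs ∧ ∀ c, c ≠ c1 → c ≠ c2 → D.θ c = θs := by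
  classical
  have : Nontrivial (Fin d) := Fin.nontrivial_iff_two_le.2 hd
  set U := univ.filter fun c => θs < D.θ c with hUdef
  set V := univ.filter fun c => D.θ c < θs with hVdef
  have mU : ∀ c, c ∈ U ↔ θs < D.θ c := fun c => by simp [hUdef]
  have mV : ∀ c, c ∈ V ↔ D.θ c < θs := fun c => by simp [hVdef]
  rcases Nat.le_one_iff_eq_zero_or_eq_one.1 hU with hU0 | hU1
  · rw [Finset.card_eq_zero] at hU0
    have hU' : ∀ c, D.θ c ≤ θs := by
      intro c
      by_contra h
      push Not at h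
      have := (mU c).2 h
      rw [hU0] at this
      simp at this
    rcases Nat.le_one_iff_eq_zero_or_eq_one.1 hV with hV0 | hV1
    · rw [Finset.card_eq_zero] at hV0
      have hV' : ∀ c, θs ≤ D.θ c := by
        intro c
        by_contra h
        push Not at h
        have := (mV c).2 h
        rw [hV0] at this
        simp at this
      obtain ⟨c1, c2, h12⟩ := exists_pair_ne (Fin d)
      exact ⟨c1, c2, h12, hV' _, hU' _, fun c _ _ => le_antisymm (hU' c) (hV' c)⟩
    · obtain ⟨y, hy⟩ := Finset.card_eq_one.1 hV1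
      obtain ⟨x, hx⟩ := exists_ne y
      have hV' : ∀ c, c ≠ y → θs ≤ D.θ c := by
        intro c hc
        by_contra h
        push Not at h
        have := (mV c).2 h
        rw [hy] at this
        exact hc (by simpa using this)
      exact ⟨x, y, hx, hV' x hx, hU' y, fun c _ hc => le_antisymm (hU' c) (hV' c hc)⟩
  · obtain ⟨x, hx⟩ := Finset.card_eq_one.1 hU1
    have hxU : θs < D.θ x := (mU x).1 (by rw [hx]; simp)
    have hU' : ∀ c, c ≠ x → D.θ c ≤ θs := by
      intro c hc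
      by_contra h
      push Not at h
      have := (mU c).2 h
      rw [hx] at this
      exact hc (by simpa using this)
    rcases Nat.le_one_iff_eq_zero_or_eq_one.1 hV with hV0 | hV1
    · rw [Finset.card_eq_zero] at hV0
      have hV' : ∀ c, θs ≤ D.θ c := by
        intro c
        by_contra h
        push Not at h
        have := (mV c).2 h
        rw [hV0] at this
        simp at this
      obtain ⟨y, hy⟩ := exists_ne x
      exact ⟨x, y, hy.symm, hV' _, hU' _ hy, fun c hc _ => le_antisymm (hU' c hc) (hV' c)⟩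
    · obtain ⟨y, hy⟩ := Finset.card_eq_one.1 hV1
      have hyV : D.θ y < θs := (mV y).1 (by rw [hy]; simp)
      have hV' : ∀ c, c ≠ y → θs ≤ D.θ c := by
        intro c hc
        by_contra h
        push Not at h
        have := (mV c).2 h
        rw [hy] at this
        exact hc (by simpa using this)
      have hxy : x ≠ y := by
        rintro rfl
        linarith
      exact ⟨x, y, hxy, hV' x hxy, hU' y hxy.symm, fun c hc hc' =>
        le_antisymm (hU' c hc) (hV' c hc')⟩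

lemma pencil_matrix (θs : ℝ) (c1 c2 : Fin d) (hne : c1 ≠ c2)
    (hoth : ∀ c, c ≠ c1 → c ≠ c2 → D.θ c = θs) (i j : Fin n) :
    (D.θ c1 - θs) * (D.Z c1 i * D.Z c1 j) - (θs - D.θ c2) * (D.Z c2 i * D.Z c2 j) =
      (if i = j then -θs else 0) + (-(D.b + θs * D.α)) * D.A i j +
        (D.a - θs * D.β) * D.B i j := by
  have h := D.gram_comb (-θs) 1 i j
  rw [Fintype.sum_eq_add c1 c2 hne] at h
  · have h2 : (D.θ c1 - θs) * (D.Z c1 i * D.Z c1 j) - (θs - D.θ c2) * (D.Z c2 i * D.Z c2 j) =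
      (-θs + 1 * D.θ c1) * (D.Z c1 i * D.Z c1 j) + (-θs + 1 * D.θ c2) * (D.Z c2 i * D.Z c2 j) := by
      ring
    rw [h2, h]
    split_ifs <;> ring
  · rintro c ⟨hc, hc'⟩
    rw [hoth c hc hc']
    ring

lemma key_contra (h1 : 1 < (D.a + D.b) ^ 2) (h2 : 1 < (D.a - D.b) ^ 2) (x0 x1 x2 : ℝ)
    (hx : x0 + x1 * D.a + x2 * D.b = 0) (hne : ¬ (x0 = 0 ∧ x1 = 0 ∧ x2 = 0))
    (e1 : x1 ^ 2 = x0 ^ 2) (e2 : x2 ^ 2 = x0 ^ 2) : False := by
  by_cases h0 : x0 = 0
  · apply hne
    rw [h0] at e1 e2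
    refine ⟨h0, ?_, ?_⟩
    · simpa using e1
    · simpa using e2
  · rcases sq_eq_sq_iff_eq_or_eq_neg.1 e1 with g1 | g1 <;>
      rcases sq_eq_sq_iff_eq_or_eq_neg.1 e2 with g2 | g2 <;> rw [g1, g2] at hx
    · have h3 : x0 * (1 + (D.a + D.b)) = 0 := by linarith
      rcases mul_eq_zero.1 h3 with h | h
      · exact h0 h
      · have : D.a + D.b = -1 := by linarith
        rw [this] at h1; norm_num at h1
    · have h3 : x0 * (1 + (D.a - D.b)) = 0 := by linarith
      rcases mul_eq_zero.1 h3 with h | h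
      · exact h0 h
      · have : D.a - D.b = -1 := by linarith
        rw [this] at h2; norm_num at h2
    · have h3 : x0 * (1 - (D.a - D.b)) = 0 := by linarith
      rcases mul_eq_zero.1 h3 with h | h
      · exact h0 h
      · have : D.a - D.b = 1 := by linarith
        rw [this] at h2; norm_num at h2
    · have h3 : x0 * (1 - (D.a + D.b)) = 0 := by linarith
      rcases mul_eq_zero.1 h3 with h | h
      · exact h0 h
      · have : D.a + D.b = 1 := by linarith
        rw [this] at h1; norm_num at h1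

/-- A clique of one class with constant triple products has at most `d + 1` elements. -/
lemma clique_bound (C : Finset (Fin n)) (e : ℝ) (he : e * e = 1)
    (hC : ∀ j ∈ C, ∀ k ∈ C, j ≠ k → D.A j k ≠ 0)
    (htri : ∀ i ∈ C, ∀ j ∈ C, ∀ k ∈ C, i ≠ j → j ≠ k → i ≠ k →
      D.A i j * D.A j k * D.A i k = e) : C.card ≤ d + 1 := by
  classical
  by_contra hcon
  push Not at hcon
  obtain ⟨i1, hi1⟩ : C.Nonempty := by rw [← Finset.card_pos]; omega
  have hA2 : ∀ j ∈ C, ∀ k ∈ C, j ≠ k → D.A j k * D.A j k = 1 ∧ D.B j k = 0 := by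
    intro j hj k hk hjk
    have h := hC j hj k hk hjk
    rcases D.AB_cases j k hjk with ⟨g1, g2⟩ | ⟨g1, g2⟩ | ⟨g1, g2⟩ | ⟨g1, g2⟩
    · exact ⟨by rw [g1]; norm_num, g2⟩
    · exact ⟨by rw [g1]; norm_num, g2⟩
    · exact absurd g1 h
    · exact absurd g1 h
  obtain ⟨ε, hεdef⟩ : ∃ ε : Fin n → ℝ, ∀ j, ε j = if j = i1 then 1 else e * D.A i1 j :=
    ⟨_, fun _ => rfl⟩
  have hε : ∀ j ∈ C, ε j * ε j = 1 := by
    intro j hj
    rw [hεdef]
    split_ifs with h
    · norm_num
    · have := (hA2 i1 hi1 j hj (Ne.symm h)).1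
      calc e * D.A i1 j * (e * D.A i1 j) = (e * e) * (D.A i1 j * D.A i1 j) := by ring
        _ = 1 := by rw [he, this]; norm_num
  have hA : ∀ j ∈ C, ∀ k ∈ C, j ≠ k → D.A j k = e * (ε j * ε k) := by
    intro j hj k hk hjk
    by_cases hj1 : j = i1
    · subst hj1
      rw [hεdef j, if_pos rfl, hεdef k, if_neg (Ne.symm hjk)]
      calc D.A j k = (e * e) * D.A j k := by rw [he, one_mul]
        _ = _ := by ring
    · by_cases hk1 : k = i1
      · subst hk1
        rw [hεdef k, if_pos rfl, hεdef j, if_neg hj1, D.hAs j k]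
        calc D.A k j = (e * e) * D.A k j := by rw [he, one_mul]
          _ = _ := by ring
      · rw [hεdef j, if_neg hj1, hεdef k, if_neg hk1]
        have h3 := htri i1 hi1 j hj k hk (Ne.symm hj1) hjk (Ne.symm hk1)
        have h4 := (hA2 i1 hi1 j hj (Ne.symm hj1)).1
        have h5 := (hA2 i1 hi1 k hk (Ne.symm hk1)).1
        calc D.A j k = (D.A i1 j * D.A i1 j) * (D.A i1 k * D.A i1 k) * D.A j k := by
              rw [h4, h5]; ring
          _ = (D.A i1 j * D.A j k * D.A i1 k) * (D.A i1 j * D.A i1 k) := by ring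
          _ = e * (D.A i1 j * D.A i1 k) := by rw [h3]
          _ = (e * e) * (e * (D.A i1 j * D.A i1 k)) := by rw [he, one_mul]
          _ = _ := by ring
  obtain ⟨v, hv0, hv⟩ := exists_ker (ι := C) (κ := Option (Fin d))
    (fun p i => match p with
      | none => ε i.1
      | some c => D.Z c i.1) (by simpa using hcon)
  have hvε : ∑ i, v i * ε i.1 = 0 := hv none
  have hvZ : ∀ c, ∑ i, v i * D.Z c i.1 = 0 := fun c => hv (some c)
  have hGv : ∀ i j : C, ∑ c, D.Z c i.1 * D.Z c j.1 =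
      (if i = j then (1 - D.α * e) else 0) + D.α * e * (ε i.1 * ε j.1) := by
    intro i j
    rw [D.hG]
    by_cases hij : i = j
    · subst hij
      rw [if_pos rfl, if_pos rfl, D.hA0, D.hB0, hε i.1 i.2]
      ring
    · have hij' : i.1 ≠ j.1 := fun h => hij (Subtype.ext h)
      rw [if_neg hij, if_neg hij', (hA2 i.1 i.2 j.1 j.2 hij').2, hA i.1 i.2 j.1 j.2 hij']
      ring
  have h0 : ∑ c, (∑ i, v i * D.Z c i.1) * (∑ j, v j * D.Z c j.1) = 0 :=
    Finset.sum_eq_zero fun c _ => by rw [hvZ c, zero_mul]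
  have h3 : ∑ c, (∑ i, v i * D.Z c i.1) * (∑ j, v j * D.Z c j.1) =
      ∑ i, ∑ j, v i * v j * ∑ c, D.Z c i.1 * D.Z c j.1 := by
    simp_rw [Finset.sum_mul_sum, Finset.mul_sum]
    rw [Finset.sum_comm]
    refine Finset.sum_congr rfl fun i _ => ?_
    rw [Finset.sum_comm]
    refine Finset.sum_congr rfl fun j _ => ?_
    refine Finset.sum_congr rfl fun c _ => ?_
    ring
  have h4 : ∑ i, ∑ j, v i * v j * ∑ c, D.Z c i.1 * D.Z c j.1 =
      (1 - D.α * e) * (∑ i, v i * v i) +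
        D.α * e * ((∑ i, v i * ε i.1) * (∑ j, v j * ε j.1)) := by
    simp_rw [hGv]
    rw [Finset.sum_mul_sum, Finset.mul_sum, Finset.mul_sum, ← Finset.sum_add_distrib]
    refine Finset.sum_congr rfl fun i _ => ?_
    rw [Finset.mul_sum]
    have : ∀ j, v i * v j * ((if i = j then (1 - D.α * e) else 0) + D.α * e * (ε i.1 * ε j.1)) =
        (if i = j then (1 - D.α * e) * (v i * v j) else 0) +
          D.α * e * (v i * ε i.1 * (v j * ε j.1)) := by
      intro j
      split_ifs <;> ring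
    simp_rw [this, Finset.sum_add_distrib, Finset.sum_ite_eq, Finset.mem_univ, if_true]
  rw [h3, h4, hvε] at h0
  have hα := abs_lt.1 D.hα
  have he' : e = 1 ∨ e = -1 := mul_self_eq_one_iff.1 he
  have h5 : 0 < 1 - D.α * e := by
    rcases he' with h | h <;> rw [h] <;> linarith [hα.1, hα.2]
  have h6 : 0 < ∑ i, v i * v i := by
    obtain ⟨i, hi⟩ := Function.ne_iff.1 hv0
    exact Finset.sum_pos' (fun i _ => mul_self_nonneg _) ⟨i, Finset.mem_univ _, by
      have : v i ≠ 0 := hi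
      exact mul_self_pos.2 this⟩
  nlinarith [mul_pos h5 h6]

/-- A monochromatic triangle. -/
lemma ramsey (hn : 6 ≤ n) : ∃ i j k, i ≠ j ∧ j ≠ k ∧ i ≠ k ∧
    ((D.A i j ≠ 0 ∧ D.A j k ≠ 0 ∧ D.A i k ≠ 0) ∨ (D.B i j ≠ 0 ∧ D.B j k ≠ 0 ∧ D.B i k ≠ 0)) := by
  classical
  have hor : ∀ i j, i ≠ j → D.A i j ≠ 0 ∨ D.B i j ≠ 0 := by
    intro i j hij
    rcases D.AB_cases i j hij with ⟨g1, g2⟩ | ⟨g1, g2⟩ | ⟨g1, g2⟩ | ⟨g1, g2⟩
    · left; rw [g1]; norm_num
    · left; rw [g1]; norm_num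
    · right; rw [g2]; norm_num
    · right; rw [g2]; norm_num
  let i0 : Fin n := ⟨0, by omega⟩
  set S1 := univ.filter fun j => j ≠ i0 ∧ D.A i0 j ≠ 0 with hS1
  set S2 := univ.filter fun j => j ≠ i0 ∧ D.B i0 j ≠ 0 with hS2
  have hcov : (univ : Finset (Fin n)).erase i0 ⊆ S1 ∪ S2 := by
    intro j hj
    have hj0 : j ≠ i0 := (Finset.mem_erase.1 hj).1
    rw [mem_union, hS1, hS2, mem_filter, mem_filter]
    rcases hor i0 j (Ne.symm hj0) with h | h
    · exact Or.inl ⟨mem_univ _, hj0, h⟩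
    · exact Or.inr ⟨mem_univ _, hj0, h⟩
  have hcard := (Finset.card_le_card hcov).trans (Finset.card_union_le S1 S2)
  rw [Finset.card_erase_of_mem (mem_univ _), Finset.card_univ, Fintype.card_fin] at hcard
  have : 2 < S1.card ∨ 2 < S2.card := by omega
  rcases this with h | h
  · obtain ⟨x, hx, y, hy, z, hz, hxy, hxz, hyz⟩ := Finset.two_lt_card.1 h
    simp only [hS1, mem_filter, mem_univ, true_and] at hx hy hz
    rcases hor x y hxy with g | g
    · exact ⟨i0, x, y, hx.1.symm, hxy, hy.1.symm, Or.inl ⟨hx.2, g, hy.2⟩⟩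
    rcases hor y z hyz with g' | g'
    · exact ⟨i0, y, z, hy.1.symm, hyz, hz.1.symm, Or.inl ⟨hy.2, g', hz.2⟩⟩
    rcases hor x z hxz with g'' | g''
    · exact ⟨i0, x, z, hx.1.symm, hxz, hz.1.symm, Or.inl ⟨hx.2, g'', hz.2⟩⟩
    exact ⟨x, y, z, hxy, hyz, hxz, Or.inr ⟨g, g', g''⟩⟩
  · obtain ⟨x, hx, y, hy, z, hz, hxy, hxz, hyz⟩ := Finset.two_lt_card.1 h
    simp only [hS2, mem_filter, mem_univ, true_and] at hx hy hz
    rcases (hor x y hxy).symm with g | g
    · exact ⟨i0, x, y, hx.1.symm, hxy, hy.1.symm, Or.inr ⟨hx.2, g, hy.2⟩⟩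
    rcases (hor y z hyz).symm with g' | g'
    · exact ⟨i0, y, z, hy.1.symm, hyz, hz.1.symm, Or.inr ⟨hy.2, g', hz.2⟩⟩
    rcases (hor x z hxz).symm with g'' | g''
    · exact ⟨i0, x, z, hx.1.symm, hxz, hz.1.symm, Or.inr ⟨hx.2, g'', hz.2⟩⟩
    exact ⟨x, y, z, hxy, hyz, hxz, Or.inl ⟨g, g', g''⟩⟩

end BData

end Pool.Agent.W5h16.Biang
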