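import Pool.Agent.W5h16.Biang.RankTwo

/-!
The nondegenerate case, continued: the rank-two matrix with nonzero diagonal.
-/

namespace Pool.Agent.W5h16.Biang

open Finset

lemma mono_tri (x0 x a1 a2 a3 : ℝ) (ha : a1 * a1 = 1) (hb : a2 * a2 = 1) (hc : a3 * a3 = 1)
    (hdet : x0 * x0 * x0 + 2 * ((x * a1) * (x * a2) * (x * a3)) -
      x0 * ((x * a2) * (x * a2)) - x0 * ((x * a3) * (x * a3)) - x0 * ((x * a1) * (x * a1)) = 0)
    (hge : x0 ^ 2 ≤ x ^ 2) (hx0 : x0 ≠ 0) : (a1 * a2 * a3) * x = x0 := by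
  have ht : (a1 * a2 * a3) * (a1 * a2 * a3) = 1 := by
    calc (a1 * a2 * a3) * (a1 * a2 * a3) = (a1 * a1) * (a2 * a2) * (a3 * a3) := by ring
      _ = 1 := by rw [ha, hb, hc]; norm_num
  have h : (x0 - (a1 * a2 * a3) * x) ^ 2 * (x0 + 2 * (a1 * a2 * a3) * x) = 0 := by
    linear_combination hdet + (2 * x ^ 3 * (a1 * a2 * a3) - 3 * x0 * x ^ 2) * ht +
      x0 * x ^ 2 * (ha + hb + hc)
  rcases mul_eq_zero.1 h with h | h
  · have : x0 - (a1 * a2 * a3) * x = 0 := by simpa using h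
    linarith
  · exfalso
    have h2 : x0 = -(2 * ((a1 * a2 * a3) * x)) := by linarith
    have h3 : x0 ^ 2 = 4 * x ^ 2 := by
      rw [h2]
      linear_combination (4 * x ^ 2) * ht
    have h4 : 0 < x0 ^ 2 := by positivity
    linarith

lemma mixed_tri (x0 x1 x2 a1 a2 b3 : ℝ) (ha : a1 * a1 = 1) (hb : a2 * a2 = 1) (hc : b3 * b3 = 1)
    (hdet : x0 * x0 * x0 + 2 * ((x1 * a1) * (x1 * a2) * (x2 * b3)) -
      x0 * ((x1 * a2) * (x1 * a2)) - x0 * ((x2 * b3) * (x2 * b3)) -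
        x0 * ((x1 * a1) * (x1 * a1)) = 0)
    (e1 : x1 ^ 2 = x0 ^ 2) (hx0 : x0 ≠ 0) : x2 ^ 2 = x0 ^ 2 := by
  have h : x0 * (x0 - x2 * (a1 * a2 * b3)) ^ 2 = 0 := by
    linear_combination (-1) * hdet + (2 * x2 * (a1 * a2 * b3) - 2 * x0) * e1 +
      (x0 * x2 ^ 2 * b3 ^ 2 * a2 ^ 2 - x0 * x1 ^ 2) * ha +
      (x0 * x2 ^ 2 * b3 ^ 2 - x0 * x1 ^ 2) * hb
  rcases mul_eq_zero.1 h with h | h
  · exact absurd h hx0
  · have h1 : x0 - x2 * (a1 * a2 * b3) = 0 := by simpa using h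
    have h2 : x0 = x2 * (a1 * a2 * b3) := by linarith
    have ht : (a1 * a2 * b3) * (a1 * a2 * b3) = 1 := by
      calc (a1 * a2 * b3) * (a1 * a2 * b3) = (a1 * a1) * (a2 * a2) * (b3 * b3) := by ring
        _ = 1 := by rw [ha, hb, hc]; norm_num
    rw [h2]
    linear_combination (-x2 ^ 2) * ht

namespace BData

variable {n d : ℕ} (D : BData n d)

lemma A_or_B (i j : Fin n) (hij : i ≠ j) :
    (D.A i j ≠ 0 ∧ D.A i j * D.A i j = 1 ∧ D.B i j = 0) ∨
      (D.B i j ≠ 0 ∧ D.B i j * D.B i j = 1 ∧ D.A i j = 0) := by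
  rcases D.AB_cases i j hij with ⟨g1, g2⟩ | ⟨g1, g2⟩ | ⟨g1, g2⟩ | ⟨g1, g2⟩
  · left; rw [g1]; exact ⟨by norm_num, by norm_num, g2⟩
  · left; rw [g1]; exact ⟨by norm_num, by norm_num, g2⟩
  · right; rw [g2]; exact ⟨by norm_num, by norm_num, g1⟩
  · right; rw [g2]; exact ⟨by norm_num, by norm_num, g1⟩

lemma A_ne (i j : Fin n) (hij : i ≠ j) (h : D.A i j ≠ 0) :
    D.A i j * D.A i j = 1 ∧ D.B i j = 0 := by
  rcases D.A_or_B i j hij with g | g
  · exact g.2
  · exact absurd g.2.2 h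

lemma B_ne (i j : Fin n) (hij : i ≠ j) (h : D.B i j ≠ 0) :
    D.B i j * D.B i j = 1 ∧ D.A i j = 0 := by
  rcases D.A_or_B i j hij with g | g
  · exact absurd g.2.2 h
  · exact g.2

/-- The determinant identity for a triple. -/
lemma det_tri (x0 x1 x2 p q : ℝ) (u v : Fin n → ℝ)
    (hM : ∀ i j, p * (u i * u j) - q * (v i * v j) =
      (if i = j then x0 else 0) + x1 * D.A i j + x2 * D.B i j) (i j k : Fin n)
    (hij : i ≠ j) (hjk : j ≠ k) (hik : i ≠ k) :
    x0 * x0 * x0 + 2 * ((x1 * D.A i j + x2 * D.B i j) * (x1 * D.A j k + x2 * D.B j k) *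
      (x1 * D.A i k + x2 * D.B i k)) -
      x0 * ((x1 * D.A j k + x2 * D.B j k) * (x1 * D.A j k + x2 * D.B j k)) -
      x0 * ((x1 * D.A i k + x2 * D.B i k) * (x1 * D.A i k + x2 * D.B i k)) -
      x0 * ((x1 * D.A i j + x2 * D.B i j) * (x1 * D.A i j + x2 * D.B i j)) = 0 := by
  have hd : ∀ i, x0 = p * (u i * u i) - q * (v i * v i) := by
    intro i
    rw [hM i i]
    simp [D.hA0, D.hB0]
  have ho : ∀ i j, i ≠ j → x1 * D.A i j + x2 * D.B i j = p * (u i * u j) - q * (v i * v j) := by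
    intro i j h
    rw [hM i j, if_neg h]
    ring
  have h : (p * (u i * u i) - q * (v i * v i)) * (p * (u j * u j) - q * (v j * v j)) *
      (p * (u k * u k) - q * (v k * v k)) +
      2 * ((p * (u i * u j) - q * (v i * v j)) * (p * (u j * u k) - q * (v j * v k)) *
        (p * (u i * u k) - q * (v i * v k))) -
      (p * (u i * u i) - q * (v i * v i)) *
        ((p * (u j * u k) - q * (v j * v k)) * (p * (u j * u k) - q * (v j * v k))) -
      (p * (u j * u j) - q * (v j * v j)) *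
        ((p * (u i * u k) - q * (v i * v k)) * (p * (u i * u k) - q * (v i * v k))) -
      (p * (u k * u k) - q * (v k * v k)) *
        ((p * (u i * u j) - q * (v i * v j)) * (p * (u i * u j) - q * (v i * v j))) = 0 := by
    ring
  rw [← hd i, ← hd j, ← hd k, ← ho i j hij, ← ho j k hjk, ← ho i k hik] at h
  exact h

/-- Two cliques. -/
lemma two_cliques (hn : 1 ≤ n) (x0 x1 x2 p q : ℝ) (u v : Fin n → ℝ)
    (hM : ∀ i j, p * (u i * u j) - q * (v i * v j) =
      (if i = j then x0 else 0) + x1 * D.A i j + x2 * D.B i j)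
    (hx0 : x0 ≠ 0) (e1 : x1 ^ 2 = x0 ^ 2) (e2 : x2 ^ 2 ≠ x0 ^ 2) (hge : x0 ^ 2 ≤ x2 ^ 2) :
    n ≤ 2 * (d + 1) := by
  classical
  have hdet := D.det_tri x0 x1 x2 p q u v hM
  have hx1 : x1 ≠ 0 := by
    intro h
    rw [h] at e1
    have : x0 ^ 2 = 0 := by rw [← e1]; norm_num
    exact hx0 (by simpa using this)
  -- no mixed triangles
  have hmixed : ∀ i j k, i ≠ j → j ≠ k → i ≠ k → D.A i j ≠ 0 → D.A j k ≠ 0 → D.A i k ≠ 0 := by
    intro i j k hij hjk hik h1 h2 h3
    have g1 := D.A_ne i j hij h1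
    have g2 := D.A_ne j k hjk h2
    have g3 : D.B i k ≠ 0 := by
      rcases D.A_or_B i k hik with g | g
      · exact absurd h3 g.1
      · exact g.1
    have g4 := D.B_ne i k hik g3
    have h := hdet i j k hij hjk hik
    rw [g1.2, g2.2, g4.2] at h
    apply e2
    refine mixed_tri x0 x1 x2 (D.A i j) (D.A j k) (D.B i k) g1.1 g2.1 g4.1 ?_ e1 hx0
    linear_combination h
  have hBBB : ∀ i j k, i ≠ j → j ≠ k → i ≠ k → D.B i j ≠ 0 → D.B j k ≠ 0 → D.B i k = 0 := by
    intro i j k hij hjk hik h1 h2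
    by_contra h3
    have g1 := D.B_ne i j hij h1
    have g2 := D.B_ne j k hjk h2
    have g3 := D.B_ne i k hik h3
    have h := hdet i j k hij hjk hik
    rw [g1.2, g2.2, g3.2] at h
    have h4 := mono_tri x0 x2 (D.B i j) (D.B j k) (D.B i k) g1.1 g2.1 g3.1
      (by linear_combination h) hge hx0
    apply e2
    rw [← h4]
    have ht : (D.B i j * D.B j k * D.B i k) * (D.B i j * D.B j k * D.B i k) = 1 := by
      calc (D.B i j * D.B j k * D.B i k) * (D.B i j * D.B j k * D.B i k) =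
          (D.B i j * D.B i j) * (D.B j k * D.B j k) * (D.B i k * D.B i k) := by ring
        _ = 1 := by rw [g1.1, g2.1, g3.1]; norm_num
    linear_combination (-x2 ^ 2) * ht
  have htri : ∀ i j k, i ≠ j → j ≠ k → i ≠ k → D.A i j ≠ 0 → D.A j k ≠ 0 → D.A i k ≠ 0 →
      D.A i j * D.A j k * D.A i k = x0 / x1 := by
    intro i j k hij hjk hik h1 h2 h3
    have g1 := D.A_ne i j hij h1
    have g2 := D.A_ne j k hjk h2
    have g3 := D.A_ne i k hik h3
    have h := hdet i j k hij hjk hik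
    rw [g1.2, g2.2, g3.2] at h
    have h4 := mono_tri x0 x1 (D.A i j) (D.A j k) (D.A i k) g1.1 g2.1 g3.1
      (by linear_combination h) (le_of_eq e1.symm) hx0
    rw [eq_div_iff hx1]
    exact h4
  have he : (x0 / x1) * (x0 / x1) = 1 := by
    rw [div_mul_div_comm, ← pow_two, ← pow_two, e1, div_self]
    positivity
  let i0 : Fin n := ⟨0, by omega⟩
  set C1 := univ.filter fun j => j = i0 ∨ D.A i0 j ≠ 0 with hC1
  set C2 := univ.filter fun j => j ≠ i0 ∧ D.B i0 j ≠ 0 with hC2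
  have clique1 : ∀ j ∈ C1, ∀ k ∈ C1, j ≠ k → D.A j k ≠ 0 := by
    intro j hj k hk hjk
    simp only [hC1, mem_filter, mem_univ, true_and] at hj hk
    by_cases hj0 : j = i0
    · subst hj0
      rcases hk with h | h
      · exact absurd h.symm hjk
      · exact h
    · by_cases hk0 : k = i0
      · subst hk0
        rcases hj with h | h
        · exact absurd h hjk
        · rw [D.hAs]; exact h
      · have g1 : D.A i0 j ≠ 0 := hj.resolve_left hj0
        have g2 : D.A i0 k ≠ 0 := hk.resolve_left hk0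
        exact hmixed j i0 k hj0 (Ne.symm hk0) hjk (by rw [D.hAs]; exact g1) g2
  have clique2 : ∀ j ∈ C2, ∀ k ∈ C2, j ≠ k → D.A j k ≠ 0 := by
    intro j hj k hk hjk hA
    simp only [hC2, mem_filter, mem_univ, true_and] at hj hk
    have g3 : D.B j k ≠ 0 := by
      rcases D.A_or_B j k hjk with g | g
      · exact absurd hA g.1
      · exact g.1
    exact g3 (hBBB j i0 k hj.1 (Ne.symm hk.1) hjk (by rw [D.hBs]; exact hj.2) hk.2)
  have b1 := D.clique_bound C1 (x0 / x1) he clique1 (fun i hi j hj k hk hij hjk hik =>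
    htri i j k hij hjk hik (clique1 i hi j hj hij) (clique1 j hj k hk hjk)
      (clique1 i hi k hk hik))
  have b2 := D.clique_bound C2 (x0 / x1) he clique2 (fun i hi j hj k hk hij hjk hik =>
    htri i j k hij hjk hik (clique2 i hi j hj hij) (clique2 j hj k hk hjk)
      (clique2 i hi k hk hik))
  have hcov : (univ : Finset (Fin n)) ⊆ C1 ∪ C2 := by
    intro j _
    rw [mem_union, hC1, hC2, mem_filter, mem_filter]
    by_cases hj : j = i0
    · exact Or.inl ⟨mem_univ _, Or.inl hj⟩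
    · rcases D.A_or_B i0 j (Ne.symm hj) with g | g
      · exact Or.inl ⟨mem_univ _, Or.inr g.1⟩
      · exact Or.inr ⟨mem_univ _, hj, g.1⟩
  have hcard := (Finset.card_le_card hcov).trans (Finset.card_union_le C1 C2)
  rw [Finset.card_univ, Fintype.card_fin] at hcard
  omega

/-- The squares of the off-diagonal entries in the rank-two case. -/
lemma sq_rel (x0 x1 x2 p q : ℝ) (u v : Fin n → ℝ)
    (hM : ∀ i j, p * (u i * u j) - q * (v i * v j) =
      (if i = j then x0 else 0) + x1 * D.A i j + x2 * D.B i j) :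
    (∃ r : ℝ, x1 ^ 2 = x0 ^ 2 + p * q * r ^ 2) ∧ (∃ r : ℝ, x2 ^ 2 = x0 ^ 2 + p * q * r ^ 2) := by
  have hd : ∀ i, x0 = p * (u i * u i) - q * (v i * v i) := by
    intro i
    rw [hM i i]
    simp [D.hA0, D.hB0]
  constructor
  · obtain ⟨i, j, hij, hA⟩ := D.exA
    have g := D.A_ne i j hij hA
    refine ⟨u i * v j - u j * v i, ?_⟩
    have h1 := hM i j
    rw [if_neg hij, g.2] at h1
    have h2 : x1 ^ 2 = (p * (u i * u j) - q * (v i * v j)) ^ 2 := by
      rw [h1]; linear_combination (-x1 ^ 2) * g.1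
    have h3 : x0 ^ 2 = (p * (u i * u i) - q * (v i * v i)) * (p * (u j * u j) - q * (v j * v j)) := by
      rw [← hd i, ← hd j]; ring
    rw [h2, h3]; ring
  · obtain ⟨i, j, hij, hB⟩ := D.exB
    have g := D.B_ne i j hij hB
    refine ⟨u i * v j - u j * v i, ?_⟩
    have h1 := hM i j
    rw [if_neg hij, g.2] at h1
    have h2 : x2 ^ 2 = (p * (u i * u j) - q * (v i * v j)) ^ 2 := by
      rw [h1]; linear_combination (-x2 ^ 2) * g.1
    have h3 : x0 ^ 2 = (p * (u i * u i) - q * (v i * v i)) * (p * (u j * u j) - q * (v j * v j)) := by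
      rw [← hd i, ← hd j]; ring
    rw [h2, h3]; ring

/-- The rank-two case with nonzero diagonal. -/
lemma caseN2i (hn : 6 ≤ n) (h1 : 1 < (D.a + D.b) ^ 2) (h2 : 1 < (D.a - D.b) ^ 2)
    (x0 x1 x2 p q : ℝ) (u v : Fin n → ℝ) (hp : 0 ≤ p) (hq : 0 ≤ q)
    (hM : ∀ i j, p * (u i * u j) - q * (v i * v j) =
      (if i = j then x0 else 0) + x1 * D.A i j + x2 * D.B i j)
    (hx : x0 + x1 * D.a + x2 * D.b = 0) (hx0 : x0 ≠ 0) : n ≤ 2 * (d + 1) := by
  obtain ⟨⟨r1, hr1⟩, ⟨r2, hr2⟩⟩ := D.sq_rel x0 x1 x2 p q u v hM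
  have hge1 : x0 ^ 2 ≤ x1 ^ 2 := by rw [hr1]; nlinarith [mul_nonneg (mul_nonneg hp hq) (sq_nonneg r1)]
  have hge2 : x0 ^ 2 ≤ x2 ^ 2 := by rw [hr2]; nlinarith [mul_nonneg (mul_nonneg hp hq) (sq_nonneg r2)]
  have hnot : ¬ (x1 ^ 2 = x0 ^ 2 ∧ x2 ^ 2 = x0 ^ 2) := fun h =>
    D.key_contra h1 h2 x0 x1 x2 hx (fun h => hx0 h.1) h.1 h.2
  have hdet := D.det_tri x0 x1 x2 p q u v hM
  have hor : x1 ^ 2 = x0 ^ 2 ∨ x2 ^ 2 = x0 ^ 2 := by
    obtain ⟨i, j, k, hij, hjk, hik, ⟨a1, a2, a3⟩ | ⟨a1, a2, a3⟩⟩ := D.ramsey hn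
    · left
      have g1 := D.A_ne i j hij a1
      have g2 := D.A_ne j k hjk a2
      have g3 := D.A_ne i k hik a3
      have h := hdet i j k hij hjk hik
      rw [g1.2, g2.2, g3.2] at h
      have h4 := mono_tri x0 x1 (D.A i j) (D.A j k) (D.A i k) g1.1 g2.1 g3.1
        (by linear_combination h) hge1 hx0
      rw [← h4]
      have ht : (D.A i j * D.A j k * D.A i k) * (D.A i j * D.A j k * D.A i k) = 1 := by
        calc (D.A i j * D.A j k * D.A i k) * (D.A i j * D.A j k * D.A i k) =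
            (D.A i j * D.A i j) * (D.A j k * D.A j k) * (D.A i k * D.A i k) := by ring
          _ = 1 := by rw [g1.1, g2.1, g3.1]; norm_num
      linear_combination (-x1 ^ 2) * ht
    · right
      have g1 := D.B_ne i j hij a1
      have g2 := D.B_ne j k hjk a2
      have g3 := D.B_ne i k hik a3
      have h := hdet i j k hij hjk hik
      rw [g1.2, g2.2, g3.2] at h
      have h4 := mono_tri x0 x2 (D.B i j) (D.B j k) (D.B i k) g1.1 g2.1 g3.1
        (by linear_combination h) hge2 hx0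
      rw [← h4]
      have ht : (D.B i j * D.B j k * D.B i k) * (D.B i j * D.B j k * D.B i k) = 1 := by
        calc (D.B i j * D.B j k * D.B i k) * (D.B i j * D.B j k * D.B i k) =
            (D.B i j * D.B i j) * (D.B j k * D.B j k) * (D.B i k * D.B i k) := by ring
          _ = 1 := by rw [g1.1, g2.1, g3.1]; norm_num
      linear_combination (-x2 ^ 2) * ht
  rcases hor with e1 | e2
  · exact D.two_cliques (by omega) x0 x1 x2 p q u v hM hx0 e1 (fun h => hnot ⟨e1, h⟩) hge2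
  · refine D.swap.two_cliques (by omega) x0 x2 x1 p q u v (fun i j => ?_) hx0 e2
      (fun h => hnot ⟨h, e2⟩) hge1
    rw [hM i j]
    simp only [swap]
    ring

end BData

end Pool.Agent.W5h16.Biang
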