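import Pool.Agent.W5h16.Biang.Core
import Pool.Agent.W5h16.Biang.Geom

/-!
Three systems of vectors with the same sign pattern.
-/

namespace Pool.Agent.W5h16.Biang

open Finset

/-- A sign pattern: `A` and `B` are symmetric `0, ±1` matrices with complementary supports off the
diagonal. -/
structure Pattern (n : ℕ) where
  A : Fin n → Fin n → ℝ
  B : Fin n → Fin n → ℝ
  hAB : ∀ i j, i ≠ j → ((A i j = 1 ∨ A i j = -1) ∧ B i j = 0) ∨
    (A i j = 0 ∧ (B i j = 1 ∨ B i j = -1))
  hA0 : ∀ i, A i i = 0
  hB0 : ∀ i, B i i = 0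
  hAs : ∀ i j, A i j = A j i
  hBs : ∀ i j, B i j = B j i

variable {n d : ℕ}

/-- The Gram matrix of `x` is `I + α A + β B`. -/
def HasGram (P : Pattern n) (x : Fin n → EuclideanSpace ℝ (Fin d)) (α β : ℝ) : Prop :=
  ∀ i j, inner ℝ (x i) (x j) = (if i = j then 1 else 0) + α * P.A i j + β * P.B i j

lemma inner_eq_sum (u v : EuclideanSpace ℝ (Fin d)) : inner ℝ u v = ∑ c, u c * v c := by
  simp only [PiLp.inner_apply, RCLike.inner_apply, conj_trivial]
  exact Finset.sum_congr rfl fun c _ => mul_comm _ _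

/-- the linear combination of the vectors -/
def comb (x : Fin n → EuclideanSpace ℝ (Fin d)) (v : Fin n → ℝ) : EuclideanSpace ℝ (Fin d) :=
  ∑ i, v i • x i

/-- a vector in the kernel of the Gram matrix -/
lemma ker_gram (P : Pattern n) (x : Fin n → EuclideanSpace ℝ (Fin d)) (α β : ℝ)
    (hx : HasGram P x α β) (v : Fin n → ℝ) (hv : comb x v = 0) (i : Fin n) :
    v i + α * ∑ j, P.A i j * v j + β * ∑ j, P.B i j * v j = 0 := by
  have h1 : inner ℝ (x i) (comb x v) = 0 := by rw [hv, inner_zero_right]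
  unfold comb at h1
  rw [inner_sum] at h1
  have h2 : ∀ j, inner ℝ (x i) (v j • x j) = (if i = j then v j else 0) + α * (P.A i j * v j) +
      β * (P.B i j * v j) := by
    intro j
    rw [inner_smul_right, hx]
    split_ifs <;> ring
  simp_rw [h2] at h1
  rw [Finset.sum_add_distrib, Finset.sum_add_distrib, Finset.sum_ite_eq, if_pos (mem_univ _),
    ← Finset.mul_sum, ← Finset.mul_sum] at h1
  exact h1

lemma comb_norm (P : Pattern n) (x : Fin n → EuclideanSpace ℝ (Fin d)) (α β : ℝ)
    (hx : HasGram P x α β) (v : Fin n → ℝ) :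
    inner ℝ (comb x v) (comb x v) = (∑ i, v i * v i) + α * (∑ i, ∑ j, v i * v j * P.A i j) +
      β * (∑ i, ∑ j, v i * v j * P.B i j) := by
  unfold comb
  rw [sum_inner, Finset.mul_sum, Finset.mul_sum, ← Finset.sum_add_distrib,
    ← Finset.sum_add_distrib]
  refine Finset.sum_congr rfl fun i _ => ?_
  rw [inner_sum]
  have h2 : ∀ j, inner ℝ (v i • x i) (v j • x j) = (if i = j then v i * v j else 0) +
      α * (v i * v j * P.A i j) + β * (v i * v j * P.B i j) := by
    intro j
    rw [inner_smul_left, inner_smul_right, hx, conj_trivial]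
    split_ifs <;> ring
  simp_rw [h2]
  rw [Finset.sum_add_distrib, Finset.sum_add_distrib, Finset.sum_ite_eq, if_pos (mem_univ _),
    ← Finset.mul_sum, ← Finset.mul_sum]

/-- Three systems on a line. -/
theorem three_line (hd : 7 ≤ d) (hn : d * (d - 1) < 2 * n) (P : Pattern n)
    (x1 x2 x3 : Fin n → EuclideanSpace ℝ (Fin d)) (α1 β1 α3 β3 s : ℝ) (hs0 : 0 < s) (hs1 : s < 1)
    (h1 : HasGram P x1 α1 β1) (h3 : HasGram P x3 α3 β3)
    (h2 : HasGram P x2 (α1 + s * (α3 - α1)) (β1 + s * (β3 - β1)))
    (hne : ∃ i j, inner ℝ (x1 i) (x1 j) ≠ inner ℝ (x3 i) (x3 j))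
    (hlt : ∀ i j, i ≠ j → |inner ℝ (x2 i) (x2 j)| < 1) : TwoDist n (d - 1) := by
  classical
  set t1 := α3 - α1 with ht1
  set t2 := β3 - β1 with ht2
  -- kernel of the middle system
  have hker : ∀ v, comb x2 v = 0 → comb x1 v = 0 ∧ comb x3 v = 0 := by
    intro v hv
    have e1 := comb_norm P x1 α1 β1 h1 v
    have e2 := comb_norm P x2 _ _ h2 v
    have e3 := comb_norm P x3 α3 β3 h3 v
    rw [hv, inner_zero_left] at e2
    have g1 : 0 ≤ inner ℝ (comb x1 v) (comb x1 v) := real_inner_self_nonneg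
    have g3 : 0 ≤ inner ℝ (comb x3 v) (comb x3 v) := real_inner_self_nonneg
    have e4 : (1 - s) * inner ℝ (comb x1 v) (comb x1 v) + s * inner ℝ (comb x3 v) (comb x3 v) =
        0 := by
      rw [e1, e3]
      rw [ht1, ht2] at e2
      linear_combination -e2
    have g4 : 0 ≤ (1 - s) * inner ℝ (comb x1 v) (comb x1 v) :=
      mul_nonneg (by linarith) g1
    have g5 : 0 ≤ s * inner ℝ (comb x3 v) (comb x3 v) := mul_nonneg hs0.le g3
    have g6 : (1 - s) * inner ℝ (comb x1 v) (comb x1 v) = 0 := by linarith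
    have g7 : s * inner ℝ (comb x3 v) (comb x3 v) = 0 := by linarith
    constructor
    · rcases mul_eq_zero.1 g6 with h | h
      · linarith
      · exact inner_self_eq_zero.1 h
    · rcases mul_eq_zero.1 g7 with h | h
      · linarith
      · exact inner_self_eq_zero.1 h
  have hrel : ∀ v, comb x2 v = 0 → ∀ i,
      v i + α1 * ∑ j, P.A i j * v j + β1 * ∑ j, P.B i j * v j = 0 ∧
      t1 * ∑ j, P.A i j * v j + t2 * ∑ j, P.B i j * v j = 0 := by
    intro v hv i
    have e1 := ker_gram P x1 α1 β1 h1 v (hker v hv).1 i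
    have e3 := ker_gram P x3 α3 β3 h3 v (hker v hv).2 i
    refine ⟨e1, ?_⟩
    rw [ht1, ht2]
    linear_combination e3 - e1
  -- a nonzero kernel vector
  have hdn : d < n := by
    have : 2 * d ≤ d * (d - 1) := by
      obtain ⟨e, rfl⟩ : ∃ e, d = e + 7 := ⟨d - 7, by omega⟩
      have : e + 7 - 1 = e + 6 := by omega
      rw [this]; nlinarith
    omega
  obtain ⟨v0, hv0, hv0'⟩ := exists_ker (ι := Fin n) (κ := Fin d) (fun c i => x2 i c)
    (by simpa using hdn)
  have hv0ker : comb x2 v0 = 0 := by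
    unfold comb
    ext c
    have := hv0' c
    simpa using this
  obtain ⟨k, hk⟩ := Function.ne_iff.1 hv0
  simp only [Pi.zero_apply] at hk
  set Δ := α1 * t2 - β1 * t1 with hΔ
  have hΔA : ∀ v, comb x2 v = 0 → ∀ i, Δ * ∑ j, P.A i j * v j = - t2 * v i := by
    intro v hv i
    obtain ⟨e1, e2⟩ := hrel v hv i
    rw [hΔ]
    linear_combination t2 * e1 - β1 * e2
  have hΔB : ∀ v, comb x2 v = 0 → ∀ i, Δ * ∑ j, P.B i j * v j = t1 * v i := by
    intro v hv i
    obtain ⟨e1, e2⟩ := hrel v hv i
    rw [hΔ]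
    linear_combination -t1 * e1 + α1 * e2
  have hT0 : ∃ i j, t1 * P.A i j + t2 * P.B i j ≠ 0 := by
    obtain ⟨i, j, hij⟩ := hne
    refine ⟨i, j, fun h => hij ?_⟩
    rw [h1, h3]
    rw [ht1, ht2] at h
    linear_combination -h
  have ht : ¬ (t1 = 0 ∧ t2 = 0) := by
    rintro ⟨g1, g2⟩
    obtain ⟨i, j, h⟩ := hT0
    apply h
    rw [g1, g2]; ring
  have hΔ0 : Δ ≠ 0 := by
    intro h
    apply ht
    have e1 := hΔA v0 hv0ker k
    have e2 := hΔB v0 hv0ker k
    rw [h, zero_mul] at e1 e2
    constructor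
    · rcases mul_eq_zero.1 e2.symm with g | g
      · exact g
      · exact absurd g hk
    · rcases mul_eq_zero.1 e1.symm with g | g
      · linarith
      · exact absurd g hk
  -- diagonalisation
  obtain ⟨Z, θ, hZ1, hZ2⟩ := simdiag (Matrix.of fun c i => x2 i c)
    (Matrix.of fun i j => (-t2 / Δ) * P.B i j - (t1 / Δ) * P.A i j)
    (by
      ext i j
      simp only [Matrix.transpose_apply, Matrix.of_apply]
      rw [P.hAs j i, P.hBs j i])
    (by
      intro v hv
      have hv' : comb x2 v = 0 := by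
        unfold comb
        ext c
        have := congrFun hv c
        simp only [Matrix.mulVec, dotProduct, Matrix.of_apply, Pi.zero_apply] at this
        simp only [WithLp.ofLp_sum, WithLp.ofLp_smul, Finset.sum_apply, Pi.smul_apply,
          smul_eq_mul, WithLp.ofLp_zero, Pi.zero_apply]
        rw [← this]
        exact Finset.sum_congr rfl fun i _ => mul_comm _ _
      funext i
      simp only [Matrix.mulVec, dotProduct, Matrix.of_apply, Pi.zero_apply]
      have e2 := (hrel v hv' i).2
      have e3 : ∑ j, ((-t2 / Δ) * P.B i j - (t1 / Δ) * P.A i j) * v j =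
          - (1 / Δ) * (t1 * ∑ j, P.A i j * v j + t2 * ∑ j, P.B i j * v j) := by
        rw [Finset.mul_sum, Finset.mul_sum, ← Finset.sum_add_distrib, Finset.mul_sum]
        refine Finset.sum_congr rfl fun j _ => ?_
        field_simp
        ring
      rw [e3, e2, mul_zero])
  have exA : ∃ i j, i ≠ j ∧ P.A i j ≠ 0 := by
    by_contra hcon
    push Not at hcon
    have hA : ∀ i j, P.A i j = 0 := by
      intro i j
      by_cases h : i = j
      · rw [h]; exact P.hA0 j
      · exact hcon i j h
    have e1 := hΔA v0 hv0ker k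
    simp only [hA, zero_mul, Finset.sum_const_zero, mul_zero] at e1
    have ht2 : t2 = 0 := by
      rcases mul_eq_zero.1 e1.symm with g | g
      · linarith
      · exact absurd g hk
    obtain ⟨i, j, h⟩ := hT0
    apply h
    rw [hA, ht2]; ring
  have exB : ∃ i j, i ≠ j ∧ P.B i j ≠ 0 := by
    by_contra hcon
    push Not at hcon
    have hB : ∀ i j, P.B i j = 0 := by
      intro i j
      by_cases h : i = j
      · rw [h]; exact P.hB0 j
      · exact hcon i j h
    have e1 := hΔB v0 hv0ker k
    simp only [hB, zero_mul, Finset.sum_const_zero, mul_zero] at e1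
    have ht1 : t1 = 0 := by
      rcases mul_eq_zero.1 e1.symm with g | g
      · exact g
      · exact absurd g hk
    obtain ⟨i, j, h⟩ := hT0
    apply h
    rw [hB, ht1]; ring
  let D : BData n d :=
    { Z := Z
      θ := θ
      A := P.A
      B := P.B
      α := α1 + s * t1
      β := β1 + s * t2
      a := -t2 / Δ
      b := t1 / Δ
      hAB := P.hAB
      hA0 := P.hA0
      hB0 := P.hB0
      hAs := P.hAs
      hBs := P.hBs
      hG := by
        intro i j
        rw [hZ1, ← h2 i j, inner_eq_sum]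
        rfl
      hT := by
        intro i j
        rw [hZ2]
        rfl
      hab := by
        have : Δ * ((-t2 / Δ) * (α1 + s * t1) + (t1 / Δ) * (β1 + s * t2)) = Δ * (-1) := by
          field_simp
          rw [hΔ]; ring
        exact mul_left_cancel₀ hΔ0 this
      hα := by
        obtain ⟨i, j, hij, hA⟩ := exA
        have g := hlt i j hij
        rw [h2, if_neg hij] at g
        rcases P.hAB i j hij with ⟨h4 | h4, h5⟩ | ⟨h4, _⟩
        · rw [h4, h5] at g
          simpa using g
        · rw [h4, h5] at g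
          rw [← abs_neg]
          simpa using g
        · exact absurd h4 hA
      hβ := by
        obtain ⟨i, j, hij, hB⟩ := exB
        have g := hlt i j hij
        rw [h2, if_neg hij] at g
        rcases P.hAB i j hij with ⟨_, h5⟩ | ⟨h4, h5 | h5⟩
        · exact absurd h5 hB
        · rw [h4, h5] at g
          simpa using g
        · rw [h4, h5] at g
          rw [← abs_neg]
          simpa using g
      exA := exA
      exB := exB }
  exact D.core hd hn

/-- Three systems with the same sign pattern and pairwise different Gram matrices. -/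
theorem three_systems (hd : 7 ≤ d) (hn : d * (d - 1) < 2 * n) (P : Pattern n)
    (x : Fin 3 → Fin n → EuclideanSpace ℝ (Fin d)) (α β : Fin 3 → ℝ)
    (h : ∀ k, HasGram P (x k) (α k) (β k))
    (hne : ∀ k l, k ≠ l → ∃ i j, inner ℝ (x k i) (x k j) ≠ inner ℝ (x l i) (x l j))
    (hlt : ∀ k i j, i ≠ j → |inner ℝ (x k i) (x k j)| < 1) : TwoDist n (d - 1) := by
  classical
  have hP : ∀ k l, k ≠ l → ¬ (α k = α l ∧ β k = β l) := by
    rintro k l hkl ⟨h1, h2⟩
    obtain ⟨i, j, hij⟩ := hne k l hkl
    apply hij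
    rw [h k, h l, h1, h2]
  have hdn : 3 * d < n := by
    have : 6 * d ≤ d * (d - 1) := by
      obtain ⟨e, rfl⟩ : ∃ e, d = e + 7 := ⟨d - 7, by omega⟩
      have : e + 7 - 1 = e + 6 := by omega
      rw [this]; nlinarith
    omega
  obtain ⟨v, hv0, hv⟩ := exists_ker (ι := Fin n) (κ := Fin 3 × Fin d) (fun p i => x p.1 i p.2)
    (by simpa using hdn)
  have hker : ∀ k, comb (x k) v = 0 := by
    intro k
    unfold comb
    ext c
    have := hv (k, c)
    simpa using this
  have hrel := fun k => ker_gram P (x k) (α k) (β k) (h k) v (hker k)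
  obtain ⟨m, hm⟩ := Function.ne_iff.1 hv0
  simp only [Pi.zero_apply] at hm
  -- the three points are collinear
  have hdet : (α 1 - α 0) * (β 2 - β 0) - (α 2 - α 0) * (β 1 - β 0) = 0 := by
    by_contra hdet
    have e0 := hrel 0 m
    have e1 := hrel 1 m
    have e2 := hrel 2 m
    set SA := ∑ j, P.A m j * v j
    set SB := ∑ j, P.B m j * v j
    have g1 : ((α 1 - α 0) * (β 2 - β 0) - (α 2 - α 0) * (β 1 - β 0)) * SA = 0 := by
      linear_combination (β 2 - β 0) * (e1 - e0) - (β 1 - β 0) * (e2 - e0)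
    have g2 : ((α 1 - α 0) * (β 2 - β 0) - (α 2 - α 0) * (β 1 - β 0)) * SB = 0 := by
      linear_combination (α 1 - α 0) * (e2 - e0) - (α 2 - α 0) * (e1 - e0)
    have g3 : SA = 0 := (mul_eq_zero.1 g1).resolve_left hdet
    have g4 : SB = 0 := (mul_eq_zero.1 g2).resolve_left hdet
    rw [g3, g4] at e0
    exact hm (by linarith)
  obtain ⟨s, hsα, hsβ⟩ : ∃ s : ℝ, α 1 - α 0 = s * (α 2 - α 0) ∧ β 1 - β 0 = s * (β 2 - β 0) := by
    by_cases hα : α 2 - α 0 = 0
    · have hβ : β 2 - β 0 ≠ 0 := by
        intro hβ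
        exact hP 2 0 (by decide) ⟨by linarith, by linarith⟩
      refine ⟨(β 1 - β 0) / (β 2 - β 0), ?_, by field_simp⟩
      rw [hα] at hdet ⊢
      rw [zero_mul, sub_zero] at hdet
      rw [mul_zero]
      exact (mul_eq_zero.1 hdet).resolve_right hβ
    · refine ⟨(α 1 - α 0) / (α 2 - α 0), by field_simp, ?_⟩
      field_simp
      linarith
  have hs0 : s ≠ 0 := by
    intro hs
    rw [hs] at hsα hsβ
    exact hP 1 0 (by decide) ⟨by linarith, by linarith⟩
  have hs1 : s ≠ 1 := by
    intro hs
    rw [hs] at hsα hsβ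
    exact hP 1 2 (by decide) ⟨by linarith, by linarith⟩
  rcases lt_or_gt_of_ne hs0 with hneg | hpos
  · -- `P0` is between `P1` and `P2`
    have h1s : 0 < 1 - s := by linarith
    refine three_line hd hn P (x 1) (x 0) (x 2) (α 1) (β 1) (α 2) (β 2) (-s / (1 - s)) ?_ ?_
      (h 1) (h 2) ?_ (hne 1 2 (by decide)) (hlt 0)
    · apply div_pos _ h1s; linarith
    · rw [div_lt_one h1s]; linarith
    · have e1 : α 1 + -s / (1 - s) * (α 2 - α 1) = α 0 := by
        field_simp
        linear_combination hsα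
      have e2 : β 1 + -s / (1 - s) * (β 2 - β 1) = β 0 := by
        field_simp
        linear_combination hsβ
      rw [e1, e2]; exact h 0
  · rcases lt_or_gt_of_ne hs1 with hlt1 | hgt1
    · refine three_line hd hn P (x 0) (x 1) (x 2) (α 0) (β 0) (α 2) (β 2) s hpos hlt1
        (h 0) (h 2) ?_ (hne 0 2 (by decide)) (hlt 1)
      have e1 : α 0 + s * (α 2 - α 0) = α 1 := by linarith
      have e2 : β 0 + s * (β 2 - β 0) = β 1 := by linarith
      rw [e1, e2]; exact h 1
    · refine three_line hd hn P (x 0) (x 2) (x 1) (α 0) (β 0) (α 1) (β 1) (1 / s) ?_ ?_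
        (h 0) (h 1) ?_ (hne 0 1 (by decide)) (hlt 2)
      · positivity
      · rw [div_lt_one hpos]; linarith
      · have e1 : α 0 + 1 / s * (α 1 - α 0) = α 2 := by
          rw [hsα]; field_simp; ring
        have e2 : β 0 + 1 / s * (β 1 - β 0) = β 2 := by
          rw [hsβ]; field_simp; ring
        rw [e1, e2]; exact h 2

end Pool.Agent.W5h16.Biang
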